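import Pool.Agent.KS6_89.BT.Op

set_option autoImplicit false

/-! Blocks with complex coefficients. -/

namespace Pool.Agent.KS6_89.BT

open Finset MonoidAlgebra MeasureTheory
open Pool.Agent.W184.NZ (mh NK NK_map NK_sq NK_conj natCast_cpow_conj Cl cl_ten NK_le_of_cl NK_ge_of_cl norm_exp_sq
  ball_pow_le NK_norm_le card_le)
open Pool.Agent.TH806 (Ix TT uu chi chi_one ec ec_norm ec_cont mt mt_apply)

/-- `∑_{p ∈ I} c_p p^{-s}` -/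
noncomputable def PC (c : ℕ → ℂ) (I : Finset ℕ) (s : ℂ) : ℂ := ∑ p ∈ I, c p * (p : ℂ) ^ (-s)

noncomputable def cx (c : ℕ → ℂ) (I : Finset ℕ) : CA := ∑ p ∈ I, single (p, 1) (c p)

noncomputable def cy (c : ℕ → ℂ) (I : Finset ℕ) : CA := ∑ p ∈ I, single (1, p) (starRingEnd ℂ (c p))

lemma cev_cx (t : ℝ) (c : ℕ → ℂ) (I : Finset ℕ) : cev t (cx c I) = PC c I (1 / 2 + t * Complex.I) := by
  unfold cx PC
  rw [map_sum]
  refine sum_congr rfl fun p _ => ?_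
  rw [cev_single]
  simp [mh]

lemma cev_cy (t : ℝ) (c : ℕ → ℂ) {I : Finset ℕ} (hI : ∀ p ∈ I, p.Prime) :
    cev t (cy c I) = starRingEnd ℂ (PC c I (1 / 2 + t * Complex.I)) := by
  unfold cy PC
  rw [map_sum, map_sum]
  refine sum_congr rfl fun p hp => ?_
  rw [cev_single, map_mul, ← natCast_cpow_conj p (hI p hp).ne_zero]
  have e : (starRingEnd ℂ) (-(1 / 2 + (t:ℂ) * Complex.I)) = -(1 / 2 - (t:ℂ) * Complex.I) := by
    rw [map_neg, map_add, map_mul, Complex.conj_ofReal, Complex.conj_I, map_div₀, map_one, map_ofNat]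
    ring
  rw [e]
  simp [mh]

/-- the coefficients on the torus -/
noncomputable def hc (c : ℕ → ℂ) (p : ℕ) : ℂ := c p * (p : ℂ) ^ (-(1 / 2) : ℂ)

lemma cet_cx {N : ℕ} (θ : Ix N → ℝ) (c : ℕ → ℂ) (I : Finset ℕ) : cet θ (cx c I) = lf (hc c) I θ := by
  unfold cx lf hc
  rw [map_sum]
  refine sum_congr rfl fun p _ => ?_
  rw [cet_single, mt_apply]
  simp [chi_one]
  ring

lemma cet_cy {N : ℕ} (θ : Ix N → ℝ) (c : ℕ → ℂ) {I : Finset ℕ} (hI : ∀ p ∈ I, p.Prime) :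
    cet θ (cy c I) = starRingEnd ℂ (lf (hc c) I θ) := by
  unfold cy lf hc
  rw [map_sum, map_sum]
  refine sum_congr rfl fun p hp => ?_
  rw [cet_single, mt_apply, map_mul, map_mul, ← natCast_cpow_conj p (hI p hp).ne_zero]
  have e : (starRingEnd ℂ) (-(1 / 2) : ℂ) = -(1 / 2) := by
    rw [map_neg, map_div₀, map_one, map_ofNat]
  rw [e]
  simp [chi_one]
  ring

/-- the square of a truncated exponential -/
noncomputable def nkE (K : ℕ) (c : ℕ → ℂ) (I : Finset ℕ) : CA := NK K (1:ℝ) (cx c I) * NK K (1:ℝ) (cy c I)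

/-- a power -/
noncomputable def baE (R : ℕ) (c : ℕ → ℂ) (I : Finset ℕ) : CA :=
  ((1 / (R:ℝ)) ^ (2 * R)) • (cx c I ^ R * cy c I ^ R)

lemma cev_nkE (t : ℝ) {I : Finset ℕ} (hI : ∀ p ∈ I, p.Prime) (K : ℕ) (c : ℕ → ℂ) :
    cev t (nkE K c I) = ((‖NK K (1:ℝ) (PC c I (1 / 2 + t * Complex.I))‖ ^ 2 : ℝ) : ℂ) := by
  unfold nkE
  have h := fun f : CA => NK_map ((cev t).restrictScalars ℝ) K (1:ℝ) f
  simp only [AlgHom.restrictScalars_apply] at h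
  rw [map_mul, h, h, cev_cx, cev_cy t c hI, NK_sq]

lemma cet_nkE {N : ℕ} (θ : Ix N → ℝ) {I : Finset ℕ} (hI : ∀ p ∈ I, p.Prime) (K : ℕ) (c : ℕ → ℂ) :
    cet θ (nkE K c I) = ((‖NK K (1:ℝ) (lf (hc c) I θ)‖ ^ 2 : ℝ) : ℂ) := by
  unfold nkE
  have h := fun f : CA => NK_map ((cet θ).restrictScalars ℝ) K (1:ℝ) f
  simp only [AlgHom.restrictScalars_apply] at h
  rw [map_mul, h, h, cet_cx, cet_cy θ c hI, NK_sq]

lemma cev_smul (t : ℝ) (a : ℝ) (f : CA) : cev t (a • f) = a * cev t f := by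
  have h := map_smul ((cev t).restrictScalars ℝ) a f
  rw [Complex.real_smul] at h
  exact h

lemma cet_smul {N : ℕ} (θ : Ix N → ℝ) (a : ℝ) (f : CA) : cet θ (a • f) = a * cet θ f := by
  have h := map_smul ((cet θ).restrictScalars ℝ) a f
  rw [Complex.real_smul] at h
  exact h

lemma ball_val (R : ℕ) (z : ℂ) : (((1 / (R:ℝ)) ^ (2 * R) : ℝ) : ℂ) * (z ^ R * (starRingEnd ℂ z) ^ R) =
    (((‖z‖ / R) ^ (2 * R) : ℝ) : ℂ) := by
  rw [← mul_pow, Complex.mul_conj, Complex.normSq_eq_norm_sq]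
  push_cast
  rw [div_pow, div_pow, ← pow_mul]
  ring

lemma cev_baE (t : ℝ) {I : Finset ℕ} (hI : ∀ p ∈ I, p.Prime) (R : ℕ) (c : ℕ → ℂ) :
    cev t (baE R c I) = (((‖PC c I (1 / 2 + t * Complex.I)‖ / R) ^ (2 * R) : ℝ) : ℂ) := by
  unfold baE
  rw [cev_smul, map_mul, map_pow, map_pow, cev_cx, cev_cy t c hI, ball_val]

lemma cet_baE {N : ℕ} (θ : Ix N → ℝ) {I : Finset ℕ} (hI : ∀ p ∈ I, p.Prime) (R : ℕ) (c : ℕ → ℂ) :
    cet θ (baE R c I) = (((‖lf (hc c) I θ‖ / R) ^ (2 * R) : ℝ) : ℂ) := by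
  unfold baE
  rw [cet_smul, map_mul, map_pow, map_pow, cet_cx, cet_cy θ c hI, ball_val]

/-! sizes -/

section
variable {I : Finset ℕ} {b A : ℝ} {c : ℕ → ℂ}

lemma cx_Bd (hI : ∀ p ∈ I, p.Prime ∧ (p:ℝ) ≤ b) : Bd b (cx c I) := by
  refine Bd.sum fun p hp => Bd.single ⟨⟨(hI p hp).1.ne_zero, one_ne_zero⟩, (hI p hp).2, ?_⟩ _
  have : (1:ℝ) ≤ p := by exact_mod_cast (hI p hp).1.one_lt.le
  push_cast; linarith [(hI p hp).2]

lemma cy_Bd (hI : ∀ p ∈ I, p.Prime ∧ (p:ℝ) ≤ b) : Bd b (cy c I) := by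
  refine Bd.sum fun p hp => Bd.single ⟨⟨one_ne_zero, (hI p hp).1.ne_zero⟩, ?_, (hI p hp).2⟩ _
  have : (1:ℝ) ≤ p := by exact_mod_cast (hI p hp).1.one_lt.le
  push_cast; linarith [(hI p hp).2]

lemma cx_l1 (hb : 0 ≤ b) (hI : ∀ p ∈ I, p.Prime ∧ (p:ℝ) ≤ b) (hA : 0 ≤ A) (hc : ∀ p ∈ I, ‖c p‖ ≤ A) :
    l1 (cx c I) ≤ A * b := by
  refine (l1_sum _ _).trans ?_
  have h1 : ∑ p ∈ I, l1 (single (p, 1) (c p) : CA) ≤ ∑ _p ∈ I, A :=
    sum_le_sum fun p hp => by rw [l1_single]; exact hc p hp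
  refine h1.trans ?_
  rw [sum_const, nsmul_eq_mul, mul_comm]
  exact mul_le_mul_of_nonneg_left (card_le hb hI) hA

lemma cy_l1 (hb : 0 ≤ b) (hI : ∀ p ∈ I, p.Prime ∧ (p:ℝ) ≤ b) (hA : 0 ≤ A) (hc : ∀ p ∈ I, ‖c p‖ ≤ A) :
    l1 (cy c I) ≤ A * b := by
  refine (l1_sum _ _).trans ?_
  have h1 : ∑ p ∈ I, l1 (single (1, p) (starRingEnd ℂ (c p)) : CA) ≤ ∑ _p ∈ I, A :=
    sum_le_sum fun p hp => by rw [l1_single, Complex.norm_conj]; exact hc p hp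
  refine h1.trans ?_
  rw [sum_const, nsmul_eq_mul, mul_comm]
  exact mul_le_mul_of_nonneg_left (card_le hb hI) hA

lemma NKc_Bd (hb : 1 ≤ b) {f : CA} (hf : Bd b f) (K : ℕ) (a : ℝ) : Bd (b ^ K) (NK K a f) := by
  refine Bd.sum fun k hk => ((hf.pow k).smul _).mono ?_
  rw [mem_range] at hk
  exact pow_le_pow_right₀ hb (by omega)

lemma NKc_l1 (hb : 1 ≤ b) {f : CA} (hf : l1 f ≤ b) (K : ℕ) : l1 (NK K (1:ℝ) f) ≤ 3 * b ^ K := by
  refine (l1_sum _ _).trans ?_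
  have h1 : ∀ k ∈ range (K + 1), l1 (((1:ℝ) ^ k / (k.factorial : ℝ)) • f ^ k) ≤
      b ^ K * (1 ^ k / (k.factorial : ℝ)) := by
    intro k hk
    rw [mem_range] at hk
    refine (l1_smul _ _).trans ?_
    rw [abs_of_nonneg (by positivity)]
    have h3 : l1 (f ^ k) ≤ b ^ K := by
      refine (l1_pow f k).trans ?_
      refine (pow_le_pow_left₀ (l1_nonneg f) hf k).trans (pow_le_pow_right₀ hb (by omega))
    rw [mul_comm (b ^ K)]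
    exact mul_le_mul_of_nonneg_left h3 (by positivity)
  refine (sum_le_sum h1).trans ?_
  rw [← mul_sum, mul_comm]
  refine mul_le_mul_of_nonneg_right ?_ (by positivity)
  refine (Real.sum_le_exp_of_nonneg zero_le_one (K + 1)).trans ?_
  have := Real.exp_one_lt_d9
  linarith

lemma nkE_Bd (hb : 1 ≤ b) (hI : ∀ p ∈ I, p.Prime ∧ (p:ℝ) ≤ b) (K : ℕ) : Bd (b ^ (2 * K)) (nkE K c I) := by
  unfold nkE
  refine ((NKc_Bd hb (cx_Bd hI) K 1).mul (NKc_Bd hb (cy_Bd hI) K 1)).mono ?_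
  rw [← pow_add, two_mul]

lemma nkE_l1 (hb : 1 ≤ b) (hI : ∀ p ∈ I, p.Prime ∧ (p:ℝ) ≤ b) (hA : 1 ≤ A) (hc : ∀ p ∈ I, ‖c p‖ ≤ A) (K : ℕ) :
    l1 (nkE K c I) ≤ 9 * (A * b) ^ (2 * K) := by
  unfold nkE
  have h1 : 1 ≤ A * b := by nlinarith
  refine (l1_mul _ _).trans ?_
  calc _ ≤ (3 * (A * b) ^ K) * (3 * (A * b) ^ K) :=
        mul_le_mul (NKc_l1 h1 (cx_l1 (by linarith) hI (by linarith) hc) K)
          (NKc_l1 h1 (cy_l1 (by linarith) hI (by linarith) hc) K) (l1_nonneg _) (by positivity)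
    _ = 9 * (A * b) ^ (2 * K) := by rw [two_mul, pow_add]; ring

lemma baE_Bd (hI : ∀ p ∈ I, p.Prime ∧ (p:ℝ) ≤ b) (R : ℕ) : Bd (b ^ (2 * R)) (baE R c I) := by
  unfold baE
  refine Bd.smul ?_ _
  have := ((cx_Bd (c := c) hI).pow R).mul ((cy_Bd (c := c) hI).pow R)
  rwa [← pow_add, ← two_mul] at this

lemma baE_l1 (hb : 0 ≤ b) (hI : ∀ p ∈ I, p.Prime ∧ (p:ℝ) ≤ b) (hA : 0 ≤ A) (hc : ∀ p ∈ I, ‖c p‖ ≤ A) {R : ℕ}
    (hR : 1 ≤ R) : l1 (baE R c I) ≤ (A * b) ^ (2 * R) := by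
  unfold baE
  refine (l1_smul _ _).trans ?_
  have hR' : (1:ℝ) ≤ R := by exact_mod_cast hR
  have h3 : |((1 / (R:ℝ)) ^ (2 * R))| ≤ 1 := by
    rw [abs_of_nonneg (by positivity)]
    refine pow_le_one₀ (by positivity) ?_
    rw [div_le_one (by linarith)]; exact hR'
  have h4 : l1 (cx c I ^ R * cy c I ^ R) ≤ (A * b) ^ (2 * R) := by
    refine (l1_mul _ _).trans ?_
    have e : (A * b) ^ (2 * R) = (A * b) ^ R * (A * b) ^ R := by rw [two_mul, pow_add]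
    rw [e]
    refine mul_le_mul ((l1_pow _ _).trans ?_) ((l1_pow _ _).trans ?_) (l1_nonneg _) (by positivity)
    · exact pow_le_pow_left₀ (l1_nonneg _) (cx_l1 hb hI hA hc) R
    · exact pow_le_pow_left₀ (l1_nonneg _) (cy_l1 hb hI hA hc) R
  calc |((1 / (R:ℝ)) ^ (2 * R))| * l1 (cx c I ^ R * cy c I ^ R) ≤ 1 * (A * b) ^ (2 * R) :=
        mul_le_mul h3 h4 (l1_nonneg _) zero_le_one
    _ = _ := one_mul _

end

end Pool.Agent.KS6_89.BT
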