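import Pool.Graph.R_seed8.TH806.Tor4
import Pool.Graph.R_seed8.W184.NZ.Avg0

set_option autoImplicit false

/-! Formal Dirichlet polynomials in `m^{-s} * conj (n^{-s})` with complex coefficients. -/

namespace Pool.Agent.KS6_89.BT

open Finset MonoidAlgebra
open Pool.Agent.W184.NZ (mh NK)

/-- formal complex combinations of the monomials `(m, n)` -/
abbrev CA := MonoidAlgebra ℂ (ℕ × ℕ)

/-- sum of the absolute values of the coefficients -/
noncomputable def l1 (f : CA) : ℝ := ∑ x ∈ f.coeff.support, ‖f.coeff x‖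

lemma l1_nonneg (f : CA) : 0 ≤ l1 f := sum_nonneg fun _ _ => norm_nonneg _

lemma l1_eq {f : CA} {s : Finset (ℕ × ℕ)} (h : f.coeff.support ⊆ s) : l1 f = ∑ x ∈ s, ‖f.coeff x‖ := by
  refine sum_subset h fun x _ hx => ?_
  rw [Finsupp.notMem_support_iff.mp hx, norm_zero]

lemma l1_add (f g : CA) : l1 (f + g) ≤ l1 f + l1 g := by
  classical
  have h : (f + g).coeff.support ⊆ f.coeff.support ∪ g.coeff.support := by
    rw [coeff_add]; exact Finsupp.support_add
  rw [l1_eq h, l1_eq (f := f) subset_union_left, l1_eq (f := g) subset_union_right, ← sum_add_distrib]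
  refine sum_le_sum fun x _ => ?_
  rw [coeff_add, Finsupp.add_apply]
  exact norm_add_le _ _

lemma l1_zero : l1 0 = 0 := by simp [l1]

lemma l1_sum {ι : Type*} (s : Finset ι) (f : ι → CA) : l1 (∑ i ∈ s, f i) ≤ ∑ i ∈ s, l1 (f i) := by
  classical
  induction s using Finset.induction_on with
  | empty => simp [l1_zero]
  | insert a s ha ih =>
    rw [sum_insert ha, sum_insert ha]
    exact (l1_add _ _).trans (by linarith)

lemma l1_single (x : ℕ × ℕ) (c : ℂ) : l1 (single x c) = ‖c‖ := by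
  have h : (single x c : CA).coeff.support ⊆ {x} := by
    rw [coeff_single]; exact Finsupp.support_single_subset
  rw [l1_eq h, sum_singleton, coeff_single, Finsupp.single_eq_same]

lemma l1_smul (a : ℝ) (f : CA) : l1 (a • f) ≤ |a| * l1 f := by
  have h : (a • f).coeff.support ⊆ f.coeff.support := by
    rw [coeff_smul]; exact Finsupp.support_smul
  rw [l1_eq h, l1, mul_sum]
  refine sum_le_sum fun x _ => ?_
  rw [coeff_smul, Finsupp.smul_apply, norm_smul, Real.norm_eq_abs]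

lemma l1_mul (f g : CA) : l1 (f * g) ≤ l1 f * l1 g := by
  rw [MonoidAlgebra.mul_def, Finsupp.sum]
  refine (l1_sum _ _).trans ?_
  rw [l1, l1, sum_mul_sum]
  refine sum_le_sum fun x _ => ?_
  rw [Finsupp.sum]
  refine (l1_sum _ _).trans ?_
  refine sum_le_sum fun y _ => ?_
  rw [l1_single, norm_mul]

lemma l1_one : l1 1 = 1 := by
  rw [MonoidAlgebra.one_def, l1_single, norm_one]

lemma l1_pow (f : CA) (k : ℕ) : l1 (f ^ k) ≤ l1 f ^ k := by
  induction k with
  | zero => rw [pow_zero, pow_zero, l1_one]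
  | succ k ih =>
    rw [pow_succ, pow_succ]
    exact (l1_mul _ _).trans (mul_le_mul_of_nonneg_right ih (l1_nonneg _))

/-- supported on monomials with both entries in `[1, N]` -/
def Bd (N : ℝ) (f : CA) : Prop :=
  ∀ x ∈ f.coeff.support, (x.1 ≠ 0 ∧ x.2 ≠ 0) ∧ (x.1 : ℝ) ≤ N ∧ (x.2 : ℝ) ≤ N

lemma Bd.mono {N M : ℝ} {f : CA} (h : Bd N f) (hNM : N ≤ M) : Bd M f :=
  fun x hx => ⟨(h x hx).1, (h x hx).2.1.trans hNM, (h x hx).2.2.trans hNM⟩

lemma Bd.mul {N M : ℝ} {f g : CA} (hf : Bd N f) (hg : Bd M g) : Bd (N * M) (f * g) := by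
  classical
  intro x hx
  have := support_coeff_mul_subset f g hx
  rw [Finset.mem_mul] at this
  obtain ⟨y, hy, z, hz, rfl⟩ := this
  have h1 := hf y hy
  have h2 := hg z hz
  have n1 : 0 ≤ N := (Nat.cast_nonneg _).trans h1.2.1
  refine ⟨⟨mul_ne_zero h1.1.1 h2.1.1, mul_ne_zero h1.1.2 h2.1.2⟩, ?_, ?_⟩
  · rw [Prod.fst_mul]; push_cast
    exact mul_le_mul h1.2.1 h2.2.1 (by positivity) n1
  · rw [Prod.snd_mul]; push_cast
    exact mul_le_mul h1.2.2 h2.2.2 (by positivity) n1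

lemma Bd.add {N : ℝ} {f g : CA} (hf : Bd N f) (hg : Bd N g) : Bd N (f + g) := by
  classical
  intro x hx
  rw [coeff_add] at hx
  have := Finsupp.support_add hx
  rw [Finset.mem_union] at this
  exact this.elim (hf x) (hg x)

lemma Bd.zero {N : ℝ} : Bd N 0 := by
  intro x hx; simp at hx

lemma Bd.sum {N : ℝ} {ι : Type*} {s : Finset ι} {f : ι → CA} (h : ∀ i ∈ s, Bd N (f i)) :
    Bd N (∑ i ∈ s, f i) := by
  classical
  induction s using Finset.induction_on with
  | empty => rw [sum_empty]; exact Bd.zero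
  | insert a s ha ih =>
    rw [sum_insert ha]
    exact (h a (mem_insert_self _ _)).add (ih fun i hi => h i (mem_insert_of_mem hi))

lemma Bd.smul {N : ℝ} {f : CA} (hf : Bd N f) (a : ℝ) : Bd N (a • f) := by
  intro x hx
  rw [coeff_smul] at hx
  exact hf x (Finsupp.support_smul hx)

lemma Bd.single {N : ℝ} {x : ℕ × ℕ} (h : (x.1 ≠ 0 ∧ x.2 ≠ 0) ∧ (x.1 : ℝ) ≤ N ∧ (x.2 : ℝ) ≤ N) (c : ℂ) :
    Bd N (single x c) := by
  intro y hy
  rw [coeff_single] at hy
  have := Finsupp.support_single_subset hy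
  rw [Finset.mem_singleton] at this
  rw [this]; exact h

lemma Bd.one : Bd 1 1 := by
  rw [MonoidAlgebra.one_def]
  exact Bd.single (by simp) _

lemma Bd.pow {N : ℝ} {f : CA} (hf : Bd N f) (k : ℕ) : Bd (N ^ k) (f ^ k) := by
  induction k with
  | zero => rw [pow_zero, pow_zero]; exact Bd.one
  | succ k ih => rw [pow_succ, pow_succ]; exact ih.mul hf

section
variable {f : ℕ → CA}

lemma Bd_prod (J : ℕ) {N : ℕ → ℝ} (hf : ∀ i < J, Bd (N i) (f i)) :
    Bd (∏ i ∈ range J, N i) (∏ i ∈ range J, f i) := by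
  induction J with
  | zero => rw [range_zero, prod_empty, prod_empty]; exact Bd.one
  | succ J ih =>
    rw [prod_range_succ, prod_range_succ]
    exact (ih (fun i hi => hf i (by omega))).mul (hf J (by omega))

lemma l1_prod (J : ℕ) {N : ℕ → ℝ} (hN : ∀ i < J, 0 ≤ N i) (hf : ∀ i < J, l1 (f i) ≤ N i) :
    l1 (∏ i ∈ range J, f i) ≤ ∏ i ∈ range J, N i := by
  induction J with
  | zero => rw [range_zero, prod_empty, prod_empty, l1_one]
  | succ J ih =>
    rw [prod_range_succ, prod_range_succ]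
    refine (l1_mul _ _).trans ?_
    exact mul_le_mul (ih (fun i hi => hN i (by omega)) (fun i hi => hf i (by omega))) (hf J (by omega))
      (l1_nonneg _) (prod_nonneg fun i hi => hN i (by have := mem_range.mp hi; omega))

end

/-- evaluation at `1/2 + it` -/
noncomputable def cev (t : ℝ) : CA →ₐ[ℂ] ℂ := MonoidAlgebra.lift ℂ ℂ (ℕ × ℕ) (mh t)

lemma cev_single (t : ℝ) (x : ℕ × ℕ) (c : ℂ) : cev t (single x c) = c * mh t x := by
  unfold cev; rw [MonoidAlgebra.lift_single, smul_eq_mul]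

lemma cev_apply (t : ℝ) (f : CA) : cev t f = ∑ x ∈ f.coeff.support, f.coeff x * mh t x := by
  unfold cev
  rw [MonoidAlgebra.lift_apply, Finsupp.sum]
  exact sum_congr rfl fun x _ => smul_eq_mul _ _

/-- evaluation on the torus -/
noncomputable def cet {N : ℕ} (θ : Pool.Agent.TH806.Ix N → ℝ) : CA →ₐ[ℂ] ℂ :=
  MonoidAlgebra.lift ℂ ℂ (ℕ × ℕ) (Pool.Agent.TH806.mt θ)

lemma cet_single {N : ℕ} (θ : Pool.Agent.TH806.Ix N → ℝ) (x : ℕ × ℕ) (c : ℂ) :
    cet θ (single x c) = c * Pool.Agent.TH806.mt θ x := by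
  unfold cet; rw [MonoidAlgebra.lift_single, smul_eq_mul]

lemma cet_apply {N : ℕ} (θ : Pool.Agent.TH806.Ix N → ℝ) (f : CA) :
    cet θ f = ∑ x ∈ f.coeff.support, f.coeff x * Pool.Agent.TH806.mt θ x := by
  unfold cet
  rw [MonoidAlgebra.lift_apply, Finsupp.sum]
  exact sum_congr rfl fun x _ => smul_eq_mul _ _

end Pool.Agent.KS6_89.BT
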