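import Pool.Agent.KS6_89.BT.Mid2

set_option autoImplicit false

/-! The weighted moments of the prime sums with arbitrary coefficients over the whole interval. -/

namespace Pool.Agent.KS6_89.BT

open Finset Filter MeasureTheory
open Pool.Agent.W184.NZ
open Pool.Agent.H306R2.SM (om cl Yf)
open Pool.Agent.H998_TS (yy zc zb_cont z4c four_all yy_one yy_pow pow_small)

lemma FB_cont {β : ℝ} (h0 : 0 < β) (k : ℕ) (c : ℕ → ℂ) (y : ℝ) : Continuous (FB β k c y) :=
  (zb_cont h0).mul ((DS_cont β c y).abs.pow k)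

lemma DS_le {β : ℝ} (h0 : 0 < β) (h4 : β < 4) {c : ℕ → ℂ} (hc : ∀ p, ‖c p‖ ≤ 1) {y : ℝ} (hy : 1 ≤ y) (t : ℝ) :
    |DS β c y t| ≤ 4 * y := by
  unfold DS
  refine (abs_sum_le_sum_abs _ _).trans ?_
  calc _ ≤ ∑ _p ∈ PR y, (2:ℝ) := by
        refine sum_le_sum fun p hp => ?_
        unfold PR at hp
        rw [mem_filter] at hp
        exact DS_term h0 h4 hc hp.2 t
    _ = ((PR y).card : ℝ) * 2 := by rw [sum_const, nsmul_eq_mul]
    _ ≤ ((⌊y⌋₊ + 1 : ℕ) : ℝ) * 2 := by
        refine mul_le_mul_of_nonneg_right ?_ (by norm_num)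
        have := card_filter_le (range (⌊y⌋₊ + 1)) Nat.Prime
        rw [card_range] at this
        exact_mod_cast this
    _ ≤ 4 * y := by
        have := Nat.floor_le (by linarith : 0 ≤ y)
        push_cast
        linarith

lemma FB_le {β : ℝ} (h0 : 0 < β) (h4 : β < 4) (k : ℕ) {c : ℕ → ℂ} (hc : ∀ p, ‖c p‖ ≤ 1) {y : ℝ} (hy : 1 ≤ y)
    (t : ℝ) : FB β k c y t ≤ (4 * y) ^ k * ‖riemannZeta (cl t)‖ ^ β := by
  unfold FB
  rw [mul_comm]
  exact mul_le_mul_of_nonneg_right (pow_le_pow_left₀ (abs_nonneg _) (DS_le h0 h4 hc hy t) k) (by positivity)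

/-- the two short pieces -/
lemma zpieces {β : ℝ} (h0 : 0 < β) (h4 : β < 4) {X : ℝ} (hX : 0 ≤ X) : ∃ K : ℝ, 0 < K ∧ ∀ᶠ T : ℝ in atTop,
    (∫ t in (-X)..(T ^ ((3:ℝ)/4)), ‖riemannZeta (cl t)‖ ^ β) + (∫ t in T..(T + X), ‖riemannZeta (cl t)‖ ^ β) ≤
      K * (T ^ ((12 + β) / 16) * (1 + Real.log T ^ 4)) := by
  obtain ⟨C4, hC4, hf⟩ := four_all
  have zb := zb_cont h0
  set K0 := ∫ t in (-X)..0, ‖riemannZeta (cl t)‖ ^ β with hK0
  have hK00 : 0 ≤ K0 := intervalIntegral.integral_nonneg (by linarith) fun t _ => by positivity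
  have ht : Tendsto (fun T : ℝ => T ^ ((3:ℝ)/4)) atTop atTop := tendsto_rpow_atTop (by norm_num)
  have ht2 : Tendsto (fun T : ℝ => 2 * T) atTop atTop := tendsto_id.const_mul_atTop (by norm_num)
  refine ⟨K0 + (1 + C4) + (X + 32 * C4), by positivity, ?_⟩
  filter_upwards [ht.eventually hf, ht2.eventually hf, eventually_ge_atTop 2, eventually_ge_atTop X]
    with T f1 f2 hT2 hTX
  have hT0 : 0 < T := by linarith
  have hT1 : 1 ≤ T := by linarith
  have hL := Real.log_nonneg hT1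
  set A : ℝ := T ^ ((3:ℝ)/4) with hA
  have hA0 : 0 < A := by positivity
  have hA1 : 1 ≤ A := Real.one_le_rpow hT1 (by norm_num)
  have hAT : A ≤ T := by
    have : T ^ ((3:ℝ)/4) ≤ T ^ (1:ℝ) := Real.rpow_le_rpow_of_exponent_le hT1 (by norm_num)
    rwa [Real.rpow_one] at this
  set Q : ℝ := T ^ ((12 + β) / 16) with hQ
  have hQ1 : 1 ≤ Q := Real.one_le_rpow hT1 (by linarith)
  have hAQ : A ≤ Q := Real.rpow_le_rpow_of_exponent_le hT1 (by linarith)
  set B : ℝ := T ^ (β / 4) with hB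
  have hB1 : 1 ≤ B := Real.one_le_rpow hT1 (by linarith)
  have hBQ : B ≤ Q := Real.rpow_le_rpow_of_exponent_le hT1 (by linarith)
  -- low
  have s1 := intervalIntegral.integral_add_adjacent_intervals (zb.intervalIntegrable (-X) 0)
    (zb.intervalIntegrable 0 A) (μ := volume)
  have l1 : ∫ t in (0:ℝ)..A, ‖riemannZeta (cl t)‖ ^ β ≤ (1 + C4) * (A * (1 + Real.log T ^ 4)) := by
    have hc : Continuous fun t : ℝ => 1 + ‖riemannZeta (cl t)‖ ^ 4 := continuous_const.add z4c
    have h2 : ∫ t in (0:ℝ)..A, ‖riemannZeta (cl t)‖ ^ β ≤ ∫ t in (0:ℝ)..A, (1 + ‖riemannZeta (cl t)‖ ^ 4) := by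
      refine intervalIntegral.integral_mono_on hA0.le (zb.intervalIntegrable _ _)
        (hc.intervalIntegrable _ _) fun t _ => ?_
      rcases le_total ‖riemannZeta (cl t)‖ 1 with h | h
      · have := Real.rpow_le_one (norm_nonneg _) h h0.le
        have : 0 ≤ ‖riemannZeta (cl t)‖ ^ 4 := by positivity
        linarith
      · have := Real.rpow_le_rpow_of_exponent_le h h4.le
        have e : ‖riemannZeta (cl t)‖ ^ (4:ℝ) = ‖riemannZeta (cl t)‖ ^ 4 := by
          rw [← Real.rpow_natCast]; norm_num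
        rw [e] at this
        linarith
    rw [intervalIntegral.integral_add intervalIntegrable_const (z4c.intervalIntegrable _ _),
      intervalIntegral.integral_const] at h2
    have hLA : Real.log A ≤ Real.log T := Real.log_le_log hA0 hAT
    have hLA0 : 0 ≤ Real.log A := Real.log_nonneg hA1
    have h6 : C4 * (A * Real.log A ^ 4) ≤ C4 * (A * Real.log T ^ 4) := by gcongr
    have h7 : 0 ≤ A * Real.log T ^ 4 := by positivity
    have h8 : 0 ≤ C4 * A := by positivity
    simp only [sub_zero, smul_eq_mul, mul_one] at h2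
    linarith
  -- high
  have hxb : ∀ x : ℝ, 0 ≤ x → x ^ β ≤ B + (B / T) * x ^ 4 := by
    intro x hx
    rcases le_total x (T ^ ((1:ℝ) / 4)) with h' | h'
    · have : x ^ β ≤ B := by
        calc x ^ β ≤ (T ^ ((1:ℝ) / 4)) ^ β := Real.rpow_le_rpow hx h' h0.le
          _ = B := by rw [← Real.rpow_mul hT0.le, hB]; congr 1; ring
      have : 0 ≤ (B / T) * x ^ 4 := by positivity
      linarith
    · have hx0 : 0 < x := lt_of_lt_of_le (by positivity) h'
      have h5 : x ^ β ≤ (B / T) * x ^ 4 := by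
        have e1 : x ^ β = x ^ (β - 4) * x ^ 4 := by
          rw [← Real.rpow_natCast, ← Real.rpow_add hx0]; congr 1; norm_num
        rw [e1]
        refine mul_le_mul_of_nonneg_right ?_ (by positivity)
        calc x ^ (β - 4) ≤ (T ^ ((1:ℝ) / 4)) ^ (β - 4) :=
              Real.rpow_le_rpow_of_nonpos (by positivity) h' (by linarith)
          _ = B / T := by
              have e2 : T ^ (β / 4) / T = T ^ (β / 4 - 1) := by rw [Real.rpow_sub hT0, Real.rpow_one]
              rw [← Real.rpow_mul hT0.le, hB, e2]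
              congr 1; ring
      linarith
  have l2 : ∫ t in T..(T + X), ‖riemannZeta (cl t)‖ ^ β ≤ (X + 32 * C4) * (B * (1 + Real.log T ^ 4)) := by
    have hc : Continuous fun t : ℝ => B + (B / T) * ‖riemannZeta (cl t)‖ ^ 4 :=
      continuous_const.add (continuous_const.mul z4c)
    have h2 : ∫ t in T..(T + X), ‖riemannZeta (cl t)‖ ^ β ≤
        ∫ t in T..(T + X), (B + (B / T) * ‖riemannZeta (cl t)‖ ^ 4) :=
      intervalIntegral.integral_mono_on (by linarith) (zb.intervalIntegrable _ _) (hc.intervalIntegrable _ _)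
        fun t _ => hxb _ (norm_nonneg _)
    have h3 : ∫ t in T..(T + X), (B + (B / T) * ‖riemannZeta (cl t)‖ ^ 4) =
        X * B + (B / T) * ∫ t in T..(T + X), ‖riemannZeta (cl t)‖ ^ 4 := by
      have hcc : Continuous fun t : ℝ => (B / T) * ‖riemannZeta (cl t)‖ ^ 4 := continuous_const.mul z4c
      rw [intervalIntegral.integral_add intervalIntegrable_const
        (hcc.intervalIntegrable _ _), intervalIntegral.integral_const,
        intervalIntegral.integral_const_mul, smul_eq_mul]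
      congr 2
      ring
    have h8 : ∫ t in T..(T + X), ‖riemannZeta (cl t)‖ ^ 4 ≤ ∫ t in (0:ℝ)..(2 * T), ‖riemannZeta (cl t)‖ ^ 4 := by
      have e1 : (∫ t in (0:ℝ)..T, ‖riemannZeta (cl t)‖ ^ 4) + ∫ t in T..(T + X), ‖riemannZeta (cl t)‖ ^ 4 =
          ∫ t in (0:ℝ)..(T + X), ‖riemannZeta (cl t)‖ ^ 4 :=
        intervalIntegral.integral_add_adjacent_intervals (z4c.intervalIntegrable _ _)
          (z4c.intervalIntegrable _ _) (μ := volume)
      have e2 : (∫ t in (0:ℝ)..(T + X), ‖riemannZeta (cl t)‖ ^ 4) +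
          ∫ t in (T + X)..(2 * T), ‖riemannZeta (cl t)‖ ^ 4 = ∫ t in (0:ℝ)..(2 * T), ‖riemannZeta (cl t)‖ ^ 4 :=
        intervalIntegral.integral_add_adjacent_intervals (z4c.intervalIntegrable _ _)
          (z4c.intervalIntegrable _ _) (μ := volume)
      have p1 : 0 ≤ ∫ t in (0:ℝ)..T, ‖riemannZeta (cl t)‖ ^ 4 :=
        intervalIntegral.integral_nonneg hT0.le fun t _ => by positivity
      have p2 : 0 ≤ ∫ t in (T + X)..(2 * T), ‖riemannZeta (cl t)‖ ^ 4 :=
        intervalIntegral.integral_nonneg (by linarith) fun t _ => by positivity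
      linarith
    have hl2 : Real.log (2 * T) ≤ 2 * Real.log T := by
      rw [Real.log_mul (by norm_num) hT0.ne']
      have := Real.log_le_log (by norm_num) hT2
      linarith
    have hl20 : 0 ≤ Real.log (2 * T) := Real.log_nonneg (by linarith)
    have h9 : (B / T) * ∫ t in T..(T + X), ‖riemannZeta (cl t)‖ ^ 4 ≤ 32 * C4 * (B * Real.log T ^ 4) := by
      calc (B / T) * ∫ t in T..(T + X), ‖riemannZeta (cl t)‖ ^ 4 ≤
          (B / T) * (C4 * (2 * T * (2 * Real.log T) ^ 4)) := by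
            refine mul_le_mul_of_nonneg_left ((h8.trans f2).trans ?_) (by positivity)
            gcongr
        _ = _ := by field_simp; ring
    have c1 : 0 ≤ X * (B * Real.log T ^ 4) := by positivity
    have c2 : 0 ≤ C4 * B := by positivity
    linarith
  have hE : 1 ≤ 1 + Real.log T ^ 4 := by
    have : 0 ≤ Real.log T ^ 4 := by positivity
    linarith
  have m0 : K0 ≤ K0 * (Q * (1 + Real.log T ^ 4)) :=
    le_mul_of_one_le_right hK00 (one_le_mul_of_one_le_of_one_le hQ1 hE)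
  have m1 : (1 + C4) * (A * (1 + Real.log T ^ 4)) ≤ (1 + C4) * (Q * (1 + Real.log T ^ 4)) := by gcongr
  have m2 : (X + 32 * C4) * (B * (1 + Real.log T ^ 4)) ≤ (X + 32 * C4) * (Q * (1 + Real.log T ^ 4)) := by gcongr
  linarith

/-- the estimate over `[x, T + x]` -/
theorem all2 {β : ℝ} (h0 : 0 < β) (h4 : β < 4) (k : ℕ) : ∃ η1 : ℝ, 0 < η1 ∧ ∀ η : ℝ, 0 < η → η ≤ η1 →
    ∃ C : ℝ, 0 < C ∧ ∀ x : ℝ, ∀ᶠ T : ℝ in atTop, ∀ c : ℕ → ℂ, (∀ p, ‖c p‖ ≤ 1) →
      ∫ t in x..(T + x), FB β k c (yy η T) t ≤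
        C * √(1 + VS c (yy η T)) ^ k * (T * Real.log T ^ (β ^ 2 / 4)) := by
  obtain ⟨η1, hη1, H⟩ := mid2 h0 h4 k
  have hk0 : (0:ℝ) < (k:ℝ) + 1 := by positivity
  have hβ : 0 < 4 - β := by linarith
  refine ⟨min η1 ((4 - β) / 32 / ((k:ℝ) + 1)), by positivity, fun η hη hηle => ?_⟩
  have e1 : η ≤ η1 := hηle.trans (min_le_left _ _)
  have e2 : η ≤ (4 - β) / 32 / ((k:ℝ) + 1) := hηle.trans (min_le_right _ _)
  rw [le_div_iff₀ hk0] at e2
  have k2 : k * η ≤ (4 - β) / 32 := by nlinarith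
  obtain ⟨C, hC, hm⟩ := H η hη e1
  refine ⟨C + 1, by positivity, fun x => ?_⟩
  obtain ⟨K, hK, hz⟩ := zpieces h0 h4 (abs_nonneg x)
  have hq : (4 - β) / 32 + (12 + β) / 16 < 1 := by linarith
  filter_upwards [hm, hz, pow_small hq (4 ^ k * K), eventually_ge_atTop 1,
    Real.tendsto_log_atTop.eventually_ge_atTop 1, eventually_ge_atTop |x|] with T m1 hz hps hT hL hTx c hc
  have m1 := m1 c hc
  have hT0 : 0 < T := by linarith
  set y := yy η T with hy
  have hy1 : 1 ≤ y := yy_one hT hη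
  have hyk : y ^ k ≤ T ^ ((4 - β) / 32) := yy_pow hT k2
  set A : ℝ := T ^ ((3:ℝ)/4) with hA
  have hA0 : 0 < A := by positivity
  set f := FB β k c y with hf
  have hfc : Continuous f := FB_cont h0 k c y
  have hi : ∀ a b : ℝ, IntervalIntegrable f volume a b := fun a b => hfc.intervalIntegrable a b
  have zb := zb_cont h0
  have hle : ∀ a b : ℝ, a ≤ b → ∫ t in a..b, f t ≤ (4 * y) ^ k * ∫ t in a..b, ‖riemannZeta (cl t)‖ ^ β := by
    intro a b hab
    rw [← intervalIntegral.integral_const_mul]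
    exact intervalIntegral.integral_mono_on hab (hi a b) ((continuous_const.mul zb).intervalIntegrable a b)
      fun t _ => FB_le h0 h4 k hc hy1 t
  have p1 := hle (-|x|) A (by linarith [abs_nonneg x])
  have p2 := hle T (T + |x|) (by linarith [abs_nonneg x])
  have p3 : (4 * y) ^ k * (∫ t in (-|x|)..A, ‖riemannZeta (cl t)‖ ^ β) +
      (4 * y) ^ k * (∫ t in T..(T + |x|), ‖riemannZeta (cl t)‖ ^ β) ≤ T := by
    rw [← mul_add]
    calc _ ≤ (4 * y) ^ k * (K * (T ^ ((12 + β) / 16) * (1 + Real.log T ^ 4))) :=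
          mul_le_mul_of_nonneg_left hz (by positivity)
      _ = 4 ^ k * K * (y ^ k * T ^ ((12 + β) / 16) * (1 + Real.log T ^ 4)) := by rw [mul_pow]; ring
      _ ≤ 4 ^ k * K * (T ^ ((4 - β) / 32) * T ^ ((12 + β) / 16) * (1 + Real.log T ^ 4)) := by
          have : 0 ≤ Real.log T ^ 4 := by positivity
          gcongr
      _ = 4 ^ k * K * (T ^ ((4 - β) / 32 + (12 + β) / 16) * (1 + Real.log T ^ 4)) := by
          rw [Real.rpow_add hT0]
      _ ≤ T := hps
  have hx1 := neg_abs_le x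
  have hx2 := le_abs_self x
  have s2 := intervalIntegral.integral_add_adjacent_intervals (hi (-|x|) A) (hi A T)
  have s3 := intervalIntegral.integral_add_adjacent_intervals (hi (-|x|) T) (hi T (T + |x|))
  have s4 := intervalIntegral.integral_add_adjacent_intervals (hi (-|x|) x) (hi x (T + x))
  have s5 := intervalIntegral.integral_add_adjacent_intervals (hi (-|x|) (T + x)) (hi (T + x) (T + |x|))
  have n1 : 0 ≤ ∫ t in (-|x|)..x, f t := intervalIntegral.integral_nonneg (by linarith) fun t _ => FB_nonneg _ _ _ _ _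
  have n2 : 0 ≤ ∫ t in (T + x)..(T + |x|), f t :=
    intervalIntegral.integral_nonneg (by linarith) fun t _ => FB_nonneg _ _ _ _ _
  have hP : 1 ≤ Real.log T ^ (β ^ 2 / 4) := Real.one_le_rpow hL (by positivity)
  have hV := VS_nonneg c y
  have hY : 1 ≤ √(1 + VS c y) ^ k := one_le_pow₀ (by rw [Real.one_le_sqrt]; linarith)
  have hTP : T ≤ √(1 + VS c y) ^ k * (T * Real.log T ^ (β ^ 2 / 4)) := by
    have h5 : T ≤ T * Real.log T ^ (β ^ 2 / 4) := le_mul_of_one_le_right hT0.le hP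
    exact h5.trans (le_mul_of_one_le_left (by positivity) hY)
  linarith

end Pool.Agent.KS6_89.BT
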