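import Pool.Agent.KS6_89.BT.Blk

set_option autoImplicit false

/-! The averages of the products of the block functions over the torus and over `[0, T]`. -/

namespace Pool.Agent.KS6_89.BT

open Finset MonoidAlgebra MeasureTheory
open Pool.Agent.W184.NZ (mh NK NK_map NK_sq NK_conj natCast_cpow_conj Cl cl_ten NK_le_of_cl NK_ge_of_cl norm_exp_sq
  ball_pow_le NK_norm_le card_le Rg vI uI vI_nonneg uI_nonneg bb bb_pos bb_le len RR RR_ge sum_exp_le mh_cont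
  mh_norm_le)
open Pool.Agent.TH806 (Ix TT uu chi chi_one ec ec_norm ec_cont mt mt_apply xh xh_pos xh_sq xh_cube xh_le half_eq
  mt_cont mt_norm_le)

/-- the block function -/
noncomputable def psf (R : ℕ) (zb z w : ℂ) : ℝ :=
  ‖NK (50 * R) (1:ℝ) zb‖ ^ 2 + (‖z‖ / R) ^ (2 * R) + (‖w‖ / R) ^ (2 * R)

lemma psf_nonneg (R : ℕ) (zb z w : ℂ) : 0 ≤ psf R zb z w := by unfold psf; positivity

/-- the block element -/
noncomputable def psE (R : ℕ) (b c : ℕ → ℂ) (I : Finset ℕ) : CA :=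
  nkE (50 * R) b I + baE R (fun _ => 1) I + baE R c I

lemma cev_psE (t : ℝ) {I : Finset ℕ} (hI : ∀ p ∈ I, p.Prime) (R : ℕ) (b c : ℕ → ℂ) :
    cev t (psE R b c I) = ((psf R (PC b I (1 / 2 + t * Complex.I)) (PC (fun _ => 1) I (1 / 2 + t * Complex.I))
      (PC c I (1 / 2 + t * Complex.I)) : ℝ) : ℂ) := by
  unfold psE psf
  rw [map_add, map_add, cev_nkE t hI, cev_baE t hI, cev_baE t hI]
  push_cast; rfl

lemma cet_psE {N : ℕ} (θ : Ix N → ℝ) {I : Finset ℕ} (hI : ∀ p ∈ I, p.Prime) (R : ℕ) (b c : ℕ → ℂ) :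
    cet θ (psE R b c I) = ((psf R (lf (hc b) I θ) (lf (hc fun _ => 1) I θ) (lf (hc c) I θ) : ℝ) : ℂ) := by
  unfold psE psf
  rw [map_add, map_add, cet_nkE θ hI, cet_baE θ hI, cet_baE θ hI]
  push_cast; rfl

/-- the four directions -/
noncomputable def dir : Fin 4 → ℂ := ![1 - Complex.I, 1 + Complex.I, -1 - Complex.I, -1 + Complex.I]

lemma dir_norm_sq (j : Fin 4) : ‖dir j‖ ^ 2 = 2 := by
  have h4 : ∀ s t : ℝ, |s| = 1 → |t| = 1 → ‖(s:ℂ) + t * Complex.I‖ ^ 2 = 2 := by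
    intro s t hs ht
    rw [← Complex.normSq_eq_norm_sq, Complex.normSq_add_mul_I, ← sq_abs s, ← sq_abs t, hs, ht]; norm_num
  unfold dir
  fin_cases j
  · have := h4 1 (-1) (by norm_num) (by norm_num)
    simpa [sub_eq_add_neg] using this
  · have := h4 1 1 (by norm_num) (by norm_num)
    simpa using this
  · have := h4 (-1) (-1) (by norm_num) (by norm_num)
    simpa [sub_eq_add_neg] using this
  · have := h4 (-1) 1 (by norm_num) (by norm_num)
    simpa using this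

lemma exp_dir {l : ℝ} (hl : 0 ≤ l) (z : ℂ) :
    Real.exp (l * ‖z‖) ≤ ∑ j : Fin 4, Real.exp (((l : ℂ) * dir j * z).re) := by
  have h0 := Complex.norm_le_abs_re_add_abs_im z
  have e : ∀ a : ℂ, ((l : ℂ) * a * z).re = l * (a * z).re := fun a => by
    rw [mul_assoc, Complex.re_ofReal_mul]
  rw [Fin.sum_univ_four]
  have d0 : dir 0 = 1 - Complex.I := rfl
  have d1 : dir 1 = 1 + Complex.I := rfl
  have d2 : dir 2 = -1 - Complex.I := rfl
  have d3 : dir 3 = -1 + Complex.I := rfl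
  rw [d0, d1, d2, d3, e, e, e, e]
  have e1 : ((1 - Complex.I) * z).re = z.re + z.im := by simp
  have e2 : ((1 + Complex.I) * z).re = z.re - z.im := by simp
  have e3 : ((-1 - Complex.I) * z).re = -z.re + z.im := by simp
  have e4 : ((-1 + Complex.I) * z).re = -z.re - z.im := by simp
  rw [e1, e2, e3, e4]
  have p1 := Real.exp_pos (l * (z.re + z.im))
  have p2 := Real.exp_pos (l * (z.re - z.im))
  have p3 := Real.exp_pos (l * (-z.re + z.im))
  have p4 := Real.exp_pos (l * (-z.re - z.im))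
  have h1 : Real.exp (l * ‖z‖) ≤ Real.exp (l * (|z.re| + |z.im|)) :=
    Real.exp_le_exp.mpr (mul_le_mul_of_nonneg_left h0 hl)
  refine h1.trans ?_
  rcases abs_cases z.re with ⟨ha, _⟩ | ⟨ha, _⟩ <;> rcases abs_cases z.im with ⟨hb, _⟩ | ⟨hb, _⟩ <;>
    rw [ha, hb]
  · linarith
  · rw [show z.re + -z.im = z.re - z.im by ring]; linarith
  · linarith
  · rw [show -z.re + -z.im = -z.re - z.im by ring]; linarith

/-- the index set of the exponentials -/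
abbrev Kp := Option (Fin 3 × Fin 4)

/-- the weights -/
noncomputable def pA (R : ℕ) : Kp → ℝ
  | none => (1 + Real.exp (-(5 * (R:ℝ)))) ^ 2
  | some (0, _) => Real.exp (-(5 * (R:ℝ)))
  | some (1, _) => Real.exp (-(2 * (R:ℝ)))
  | some (2, _) => Real.exp (-(2 * (R:ℝ)))

lemma pA_nonneg (R : ℕ) (j : Kp) : 0 ≤ pA R j := by
  rcases j with _ | ⟨a, b⟩
  · unfold pA; positivity
  · fin_cases a <;> (unfold pA; positivity)

/-- the coefficients -/
noncomputable def pc (b c : ℕ → ℂ) : Kp → ℕ → ℂ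
  | none => fun p => 2 * hc b p
  | some (0, j) => fun p => ((3:ℝ):ℂ) * dir j * hc b p
  | some (1, j) => fun p => ((4:ℝ):ℂ) * dir j * hc (fun _ => 1) p
  | some (2, j) => fun p => ((4:ℝ):ℂ) * dir j * hc c p

lemma lf_mul {N : ℕ} (a : ℂ) (c : ℕ → ℂ) (I : Finset ℕ) (θ : Ix N → ℝ) :
    lf (fun p => a * c p) I θ = a * lf c I θ := by
  unfold lf
  rw [mul_sum]
  exact sum_congr rfl fun p _ => by ring

lemma psf_le {R : ℕ} (hR : 1 ≤ R) (zb z w : ℂ) :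
    psf R zb z w ≤ (1 + Real.exp (-(5 * (R:ℝ)))) ^ 2 * Real.exp ((2 * zb).re) +
      Real.exp (-(5 * (R:ℝ))) * Real.exp (3 * ‖zb‖) + Real.exp (-(2 * (R:ℝ))) * Real.exp (4 * ‖z‖) +
      Real.exp (-(2 * (R:ℝ))) * Real.exp (4 * ‖w‖) := by
  have hcl := cl_ten (R := 5 * R) (by omega) (a := 1) (by norm_num)
  rw [show 10 * (5 * R) = 50 * R by ring] at hcl
  have h1 : ‖NK (50 * R) (1:ℝ) zb‖ ^ 2 ≤ (1 + Real.exp (-(5 * (R:ℝ)))) ^ 2 * Real.exp ((2 * zb).re) +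
      Real.exp (-(5 * (R:ℝ))) * Real.exp (3 * ‖zb‖) := by
    have e2 : Real.exp ((2 * zb).re) = ‖Complex.exp (((1:ℝ):ℂ) * zb)‖ ^ 2 := by
      rw [norm_exp_sq]
      congr 1; simp
    by_cases hz : ‖zb‖ ≤ 5 * (R:ℝ)
    · have h2 := NK_le_of_cl hcl (z := zb) (by push_cast; exact hz)
      push_cast at h2
      have h3 := pow_le_pow_left₀ (norm_nonneg _) h2 2
      rw [mul_pow] at h3
      rw [e2]
      push_cast
      have : 0 ≤ Real.exp (-(5 * (R:ℝ))) * Real.exp (3 * ‖zb‖) := by positivity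
      linarith
    · push Not at hz
      have h2 : ‖NK (50 * R) (1:ℝ) zb‖ ^ 2 ≤ Real.exp ‖zb‖ ^ 2 :=
        pow_le_pow_left₀ (norm_nonneg _) (NK_norm_le _ (by norm_num) _) 2
      have h3 : Real.exp ‖zb‖ ^ 2 ≤ Real.exp (-(5 * (R:ℝ))) * Real.exp (3 * ‖zb‖) := by
        rw [← Real.exp_nat_mul, ← Real.exp_add]
        apply Real.exp_le_exp.mpr
        push_cast; linarith
      have : 0 ≤ (1 + Real.exp (-(5 * (R:ℝ)))) ^ 2 * Real.exp ((2 * zb).re) := by positivity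
      linarith
  unfold psf
  linarith [ball_pow_le hR z, ball_pow_le hR w]

lemma psf_sum {N : ℕ} {R : ℕ} (hR : 1 ≤ R) (b c : ℕ → ℂ) (I : Finset ℕ) (θ : Ix N → ℝ) :
    psf R (lf (hc b) I θ) (lf (hc fun _ => 1) I θ) (lf (hc c) I θ) ≤
      ∑ j : Kp, pA R j * Real.exp ((lf (pc b c j) I θ).re) := by
  refine (psf_le hR _ _ _).trans ?_
  have h3 := exp_dir (l := 3) (by norm_num) (lf (hc b) I θ)
  have h4 := exp_dir (l := 4) (by norm_num) (lf (hc fun _ => 1) I θ)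
  have h5 := exp_dir (l := 4) (by norm_num) (lf (hc c) I θ)
  rw [Fintype.sum_option, Fintype.sum_prod_type, Fin.sum_univ_three]
  have e0 : pA R none * Real.exp ((lf (pc b c none) I θ).re) =
      (1 + Real.exp (-(5 * (R:ℝ)))) ^ 2 * Real.exp ((2 * lf (hc b) I θ).re) := by
    have : lf (pc b c none) I θ = 2 * lf (hc b) I θ := lf_mul 2 (hc b) I θ
    rw [this]; rfl
  have e1 : ∑ j : Fin 4, pA R (some (0, j)) * Real.exp ((lf (pc b c (some (0, j))) I θ).re) =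
      Real.exp (-(5 * (R:ℝ))) * ∑ j : Fin 4, Real.exp ((((3:ℝ):ℂ) * dir j * lf (hc b) I θ).re) := by
    rw [mul_sum]
    refine sum_congr rfl fun j _ => ?_
    have : lf (pc b c (some (0, j))) I θ = ((3:ℝ):ℂ) * dir j * lf (hc b) I θ := lf_mul _ (hc b) I θ
    rw [this]; rfl
  have e2 : ∑ j : Fin 4, pA R (some (1, j)) * Real.exp ((lf (pc b c (some (1, j))) I θ).re) =
      Real.exp (-(2 * (R:ℝ))) * ∑ j : Fin 4, Real.exp ((((4:ℝ):ℂ) * dir j * lf (hc fun _ => 1) I θ).re) := by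
    rw [mul_sum]
    refine sum_congr rfl fun j _ => ?_
    have : lf (pc b c (some (1, j))) I θ = ((4:ℝ):ℂ) * dir j * lf (hc fun _ => 1) I θ := lf_mul _ _ I θ
    rw [this]; rfl
  have e3 : ∑ j : Fin 4, pA R (some (2, j)) * Real.exp ((lf (pc b c (some (2, j))) I θ).re) =
      Real.exp (-(2 * (R:ℝ))) * ∑ j : Fin 4, Real.exp ((((4:ℝ):ℂ) * dir j * lf (hc c) I θ).re) := by
    rw [mul_sum]
    refine sum_congr rfl fun j _ => ?_
    have : lf (pc b c (some (2, j))) I θ = ((4:ℝ):ℂ) * dir j * lf (hc c) I θ := lf_mul _ _ I θ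
    rw [this]; rfl
  rw [e0, e1, e2, e3]
  have p1 := Real.exp_pos (-(5 * (R:ℝ)))
  have p2 := Real.exp_pos (-(2 * (R:ℝ)))
  have g3 := mul_le_mul_of_nonneg_left h3 p1.le
  have g4 := mul_le_mul_of_nonneg_left h4 p2.le
  have g5 := mul_le_mul_of_nonneg_left h5 p2.le
  linarith

/-- exponents at the primes -/
noncomputable def pu (b : ℕ → ℂ) : Kp → ℕ → ℝ
  | none => fun p => ‖b p‖ ^ 2 * (1 / (p:ℝ)) + 216 * (p:ℝ) ^ (-(3 / 2 : ℝ))
  | some _ => fun p => 162 * (1 / (p:ℝ))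

lemma hc_norm (c : ℕ → ℂ) {p : ℕ} (hp : p ≠ 0) : ‖hc c p‖ = ‖c p‖ * xh p := by
  unfold hc
  rw [norm_mul, half_eq hp, Complex.norm_real, Real.norm_eq_abs, abs_of_pos (xh_pos p)]

lemma pu_bound {b c : ℕ → ℂ} (hb : ∀ p, ‖b p‖ ≤ 3) (hcc : ∀ p, ‖c p‖ ≤ 1) {p : ℕ} (hp : 144 ≤ p) (j : Kp) :
    ∫ x, Real.exp ((pc b c j p * ec x).re) ∂uu ≤ Real.exp (pu b j p) := by
  have hp0 : p ≠ 0 := by omega
  have hx := xh_pos p
  have hx12 := xh_le hp
  have hx2 := xh_sq hp0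
  have hx3 := xh_cube hp0
  have hinv : (0:ℝ) ≤ 1 / p := by positivity
  have hcr : ∀ (l : ℝ) (j : Fin 4) (d : ℕ → ℂ) (A : ℝ), 0 ≤ A → ‖d p‖ ≤ A → l ^ 2 * 2 * A ^ 2 ≤ 162 →
      ∫ x, Real.exp ((((l:ℂ) * dir j * hc d p) * ec x).re) ∂uu ≤ Real.exp (162 * (1 / (p:ℝ))) := by
    intro l j d A hA hd hl
    refine (op_crude _).trans (Real.exp_le_exp.mpr ?_)
    rw [norm_mul, norm_mul, hc_norm d hp0, mul_pow, mul_pow, mul_pow, dir_norm_sq, Complex.norm_real,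
      Real.norm_eq_abs, sq_abs, hx2]
    have h1 : ‖d p‖ ^ 2 ≤ A ^ 2 := pow_le_pow_left₀ (norm_nonneg _) hd 2
    have h2 : l ^ 2 * 2 * ‖d p‖ ^ 2 ≤ 162 := (mul_le_mul_of_nonneg_left h1 (by positivity)).trans hl
    calc l ^ 2 * 2 * (‖d p‖ ^ 2 * (1 / (p:ℝ))) = (l ^ 2 * 2 * ‖d p‖ ^ 2) * (1 / (p:ℝ)) := by ring
      _ ≤ _ := mul_le_mul_of_nonneg_right h2 hinv
  rcases j with _ | ⟨a, j⟩
  · have e : pc b c none p = 2 * hc b p := rfl
    have e' : pu b none p = ‖b p‖ ^ 2 * (1 / (p:ℝ)) + 216 * (p:ℝ) ^ (-(3 / 2 : ℝ)) := rfl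
    rw [e, e']
    have hn : ‖2 * hc b p‖ = 2 * ‖b p‖ * xh p := by
      rw [norm_mul, Complex.norm_ofNat, hc_norm b hp0]; ring
    have h3 := hb p
    have hn1 : ‖2 * hc b p‖ ≤ 1 := by
      rw [hn]
      have : 2 * ‖b p‖ * xh p ≤ 2 * 3 * (1 / 12) := by gcongr
      linarith
    refine (op_sharp hn1).trans (Real.exp_le_exp.mpr ?_)
    rw [hn]
    have e2 : (2 * ‖b p‖ * xh p) ^ 2 / 4 = ‖b p‖ ^ 2 * (1 / (p:ℝ)) := by rw [← hx2]; ring
    have e3 : (2 * ‖b p‖ * xh p) ^ 3 ≤ 216 * (p:ℝ) ^ (-(3 / 2 : ℝ)) := by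
      rw [← hx3]
      calc (2 * ‖b p‖ * xh p) ^ 3 ≤ (2 * 3 * xh p) ^ 3 := by gcongr
        _ = 216 * xh p ^ 3 := by ring
    rw [e2]; linarith
  · have e' : pu b (some (a, j)) p = 162 * (1 / (p:ℝ)) := rfl
    rw [e']
    fin_cases a
    · exact hcr 3 j b 3 (by norm_num) (hb p) (by norm_num)
    · exact hcr 4 j (fun _ => 1) 1 (by norm_num) (by simp) (by norm_num)
    · exact hcr 4 j c 1 (by norm_num) (hcc p) (by norm_num)

/-- one block -/
lemma pblock {b : ℕ → ℂ} {I : Finset ℕ} {k : ℝ} (hv : vI I ≤ k) {R : ℕ} :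
    ∑ j : Kp, pA R j * Real.exp (∑ p ∈ I, pu b j p) ≤
      Real.exp (∑ p ∈ I, ‖b p‖ ^ 2 * (1 / (p:ℝ)) + 216 * uI I) *
        Real.exp ((3 + 12 * Real.exp (162 * k)) * Real.exp (-(R:ℝ))) := by
  have hu := uI_nonneg I
  have hb0 : 0 ≤ ∑ p ∈ I, ‖b p‖ ^ 2 * (1 / (p:ℝ)) := sum_nonneg fun _ _ => by positivity
  have hR0 : (0:ℝ) ≤ R := Nat.cast_nonneg _
  set E := Real.exp (∑ p ∈ I, ‖b p‖ ^ 2 * (1 / (p:ℝ)) + 216 * uI I) with hE
  have hE1 : 1 ≤ E := Real.one_le_exp (by positivity)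
  set X := Real.exp (-(R:ℝ)) with hX
  have hX0 : 0 < X := Real.exp_pos _
  have hX1 : X ≤ 1 := Real.exp_le_one_iff.mpr (by linarith)
  set D := Real.exp (162 * k) with hD
  have hD0 : 0 < D := Real.exp_pos _
  have s0 : ∑ p ∈ I, pu b none p = ∑ p ∈ I, ‖b p‖ ^ 2 * (1 / (p:ℝ)) + 216 * uI I := by
    unfold uI
    rw [mul_sum, ← sum_add_distrib]
    rfl
  have s1 : ∀ q : Fin 3 × Fin 4, Real.exp (∑ p ∈ I, pu b (some q) p) ≤ D := by
    intro q
    have : ∑ p ∈ I, pu b (some q) p = 162 * vI I := by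
      unfold vI
      rw [mul_sum]
      rfl
    rw [this]
    exact Real.exp_le_exp.mpr (by linarith)
  have a0 : pA R none ≤ 1 + 3 * X := by
    have h1 : Real.exp (-(5 * (R:ℝ))) ≤ X := Real.exp_le_exp.mpr (by linarith)
    have h2 : 0 < Real.exp (-(5 * (R:ℝ))) := Real.exp_pos _
    have e : pA R none = (1 + Real.exp (-(5 * (R:ℝ)))) ^ 2 := rfl
    rw [e]
    calc (1 + Real.exp (-(5 * (R:ℝ)))) ^ 2 ≤ (1 + X) ^ 2 := by gcongr
      _ ≤ 1 + 3 * X := by nlinarith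
  have a1 : ∀ q : Fin 3 × Fin 4, pA R (some q) ≤ X := by
    rintro ⟨a, q⟩
    have h1 : Real.exp (-(5 * (R:ℝ))) ≤ X := Real.exp_le_exp.mpr (by linarith)
    have h2 : Real.exp (-(2 * (R:ℝ))) ≤ X := Real.exp_le_exp.mpr (by linarith)
    fin_cases a
    · exact h1
    · exact h2
    · exact h2
  rw [Fintype.sum_option, s0]
  have h1 : ∑ q : Fin 3 × Fin 4, pA R (some q) * Real.exp (∑ p ∈ I, pu b (some q) p) ≤ 12 * (X * D) := by
    calc _ ≤ ∑ _q : Fin 3 × Fin 4, X * D := by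
          refine sum_le_sum fun q _ => mul_le_mul (a1 q) (s1 q) (Real.exp_pos _).le hX0.le
      _ = 12 * (X * D) := by
          rw [sum_const, card_univ, Fintype.card_prod, Fintype.card_fin, Fintype.card_fin, nsmul_eq_mul]
          norm_num
  have h2 : pA R none * E ≤ (1 + 3 * X) * E := mul_le_mul_of_nonneg_right a0 (by linarith)
  have h3 := Real.add_one_le_exp ((3 + 12 * D) * X)
  have h4 : 12 * (X * D) ≤ 12 * (X * D) * E := le_mul_of_one_le_right (by positivity) hE1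
  calc _ ≤ (1 + 3 * X) * E + 12 * (X * D) * E := by linarith
    _ = E * ((3 + 12 * D) * X + 1) := by ring
    _ ≤ _ := mul_le_mul_of_nonneg_left h3 (by linarith)

/-- the product of the block functions on the torus -/
noncomputable def pst {N : ℕ} (J Rs : ℕ) (b c : ℕ → ℂ) (I : ℕ → Finset ℕ) (θ : Ix N → ℝ) : ℝ :=
  ∏ i ∈ range J, psf (RR Rs i) (lf (hc b) (I i) θ) (lf (hc fun _ => 1) (I i) θ) (lf (hc c) (I i) θ)

theorem pst_int {k y : ℝ} {J Rs N : ℕ} {I : ℕ → Finset ℕ} (hg : Rg k J I (bb y)) (hy : 1 ≤ y)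
    (hyN : y < N) (hRs : 1 ≤ Rs) {b c : ℕ → ℂ} (hb : ∀ p, ‖b p‖ ≤ 3) (hcc : ∀ p, ‖c p‖ ≤ 1) :
    ∫ θ, pst J Rs b c I θ ∂(TT N) ≤ Real.exp ((∑ i ∈ range J, ∑ p ∈ I i, ‖b p‖ ^ 2 * (1 / (p:ℝ))) +
      (216 * k + (3 + 12 * Real.exp (162 * k)) * 2)) := by
  have hIsub : ∀ i < J, I i ⊆ Nat.primesBelow N := by
    intro i _ p hp
    obtain ⟨a1, _, a3⟩ := hg.pr i p hp
    rw [Nat.mem_primesBelow]
    refine ⟨?_, a1⟩
    have h1 : (p:ℝ) ≤ y := a3.trans (bb_le hy i)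
    have h2 : (p:ℝ) < N := lt_of_le_of_lt h1 hyN
    exact_mod_cast h2
  have h := torlin (N := N) (g := fun _ _ => (1:ℝ)) (fun _ _ => zero_le_one) (fun _ => continuous_const)
    (fun _ => ⟨1, fun _ => le_rfl⟩) (κ := Kp) (J := J) (A := fun i => pA (RR Rs i)) (fun i j => pA_nonneg _ j)
    (c := fun _ => pc b c) (I := I) hIsub hg.dj (Φ := pst J Rs b c I)
    (fun θ => prod_nonneg fun i _ => psf_nonneg _ _ _ _)
    (fun θ => prod_le_prod (fun i _ => psf_nonneg _ _ _ _) fun i _ => psf_sum (by unfold RR; omega) b c (I i) θ)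
    (u0 := fun _ => 0) (u1 := fun _ => pu b) (fun p _ => by simp)
    (fun p i hi hpi j => by
      simp only [one_mul]
      exact pu_bound hb hcc (hg.pr i p.1 hpi).2.1 j)
  simp only [prod_const_one, one_mul, sum_const_zero, Real.exp_zero] at h
  refine h.trans ?_
  calc _ ≤ ∏ i ∈ range J, (Real.exp (∑ p ∈ I i, ‖b p‖ ^ 2 * (1 / (p:ℝ)) + 216 * uI (I i)) *
        Real.exp ((3 + 12 * Real.exp (162 * k)) * Real.exp (-(RR Rs i:ℝ)))) := by
          refine prod_le_prod (fun i _ => sum_nonneg fun j _ => mul_nonneg (pA_nonneg _ _) (Real.exp_pos _).le) ?_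
          intro i hi
          exact pblock (hg.v i (mem_range.mp hi))
    _ = Real.exp ((∑ i ∈ range J, ∑ p ∈ I i, ‖b p‖ ^ 2 * (1 / (p:ℝ))) + 216 * (∑ i ∈ range J, uI (I i)) +
          (3 + 12 * Real.exp (162 * k)) * ∑ i ∈ range J, Real.exp (-(RR Rs i:ℝ))) := by
          rw [prod_mul_distrib, ← Real.exp_sum, ← Real.exp_sum, ← Real.exp_add, sum_add_distrib, ← mul_sum,
            ← mul_sum]
    _ ≤ _ := by
          refine Real.exp_le_exp.mpr ?_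
          have h1 := sum_exp_le J Rs (RR_ge Rs)
          have h2 : Real.exp (-(Rs:ℝ)) ≤ 1 := Real.exp_le_one_iff.mpr (by simp)
          have h3 := hg.U
          have h4 : (3 + 12 * Real.exp (162 * k)) * ∑ i ∈ range J, Real.exp (-(RR Rs i:ℝ)) ≤
              (3 + 12 * Real.exp (162 * k)) * 2 := mul_le_mul_of_nonneg_left (by linarith) (by positivity)
          linarith

end Pool.Agent.KS6_89.BT
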