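import Pool.Agent.KS6_89.BT.M0

set_option autoImplicit false

/-! The mean over `[0, T]` of the product of the block functions. -/

namespace Pool.Agent.KS6_89.BT

open Finset MonoidAlgebra MeasureTheory
open Pool.Agent.W184.NZ (Rg bb bb_pos bb_le len RR RR_ge mh mh_cont mh_norm_le)
open Pool.Agent.TH806 (Ix TT)

/-- the product of the block elements -/
noncomputable def psP (J Rs : ℕ) (b c : ℕ → ℂ) (I : ℕ → Finset ℕ) : CA := ∏ i ∈ range J, psE (RR Rs i) b c (I i)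

/-- its values -/
noncomputable def psv (J Rs : ℕ) (b c : ℕ → ℂ) (I : ℕ → Finset ℕ) (t : ℝ) : ℝ :=
  ∏ i ∈ range J, psf (RR Rs i) (PC b (I i) (1 / 2 + t * Complex.I)) (PC (fun _ => 1) (I i) (1 / 2 + t * Complex.I))
    (PC c (I i) (1 / 2 + t * Complex.I))

lemma psv_nonneg (J Rs : ℕ) (b c : ℕ → ℂ) (I : ℕ → Finset ℕ) (t : ℝ) : 0 ≤ psv J Rs b c I t :=
  prod_nonneg fun _ _ => psf_nonneg _ _ _ _

lemma cev_psP (t : ℝ) (J Rs : ℕ) (b c : ℕ → ℂ) {I : ℕ → Finset ℕ} (hI : ∀ i, ∀ p ∈ I i, p.Prime) :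
    cev t (psP J Rs b c I) = ((psv J Rs b c I t : ℝ) : ℂ) := by
  unfold psP psv
  rw [map_prod, Complex.ofReal_prod]
  exact prod_congr rfl fun i _ => cev_psE t (hI i) _ _ _

lemma cet_psP {N : ℕ} (θ : Ix N → ℝ) (J Rs : ℕ) (b c : ℕ → ℂ) {I : ℕ → Finset ℕ}
    (hI : ∀ i, ∀ p ∈ I i, p.Prime) : cet θ (psP J Rs b c I) = ((pst J Rs b c I θ : ℝ) : ℂ) := by
  unfold psP pst
  rw [map_prod, Complex.ofReal_prod]
  exact prod_congr rfl fun i _ => cet_psE θ (hI i) _ _ _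

section
variable {k y : ℝ} {J Rs : ℕ} {I : ℕ → Finset ℕ} {b c : ℕ → ℂ}

lemma psE_Bd {I : Finset ℕ} {b0 : ℝ} (hb : 1 ≤ b0) (hI : ∀ p ∈ I, p.Prime ∧ (p:ℝ) ≤ b0) (R : ℕ) :
    Bd (b0 ^ (100 * R)) (psE R b c I) := by
  unfold psE
  refine ((Bd.add ((nkE_Bd hb hI (50 * R)).mono ?_) ((baE_Bd hI R).mono ?_)).add ((baE_Bd hI R).mono ?_))
  · exact pow_le_pow_right₀ hb (by omega)
  · exact pow_le_pow_right₀ hb (by omega)
  · exact pow_le_pow_right₀ hb (by omega)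

lemma psE_l1 {I : Finset ℕ} {b0 : ℝ} (hb0 : 10 ≤ b0) (hI : ∀ p ∈ I, p.Prime ∧ (p:ℝ) ≤ b0) {R : ℕ} (hR : 1 ≤ R)
    (hb : ∀ p, ‖b p‖ ≤ 3) (hcc : ∀ p, ‖c p‖ ≤ 1) : l1 (psE R b c I) ≤ b0 ^ (200 * R) := by
  have hb1 : 1 ≤ b0 := by linarith
  unfold psE
  have h1 := nkE_l1 (A := 3) hb1 hI (by norm_num) (fun p _ => hb p) (50 * R)
  have h2 := baE_l1 (A := 1) (c := fun _ => (1:ℂ)) (by linarith : 0 ≤ b0) hI (by norm_num) (fun p _ => by simp) hR
  have h3 := baE_l1 (A := 1) (c := c) (by linarith : 0 ≤ b0) hI (by norm_num) (fun p _ => hcc p) hR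
  have h4 : (3 * b0) ^ (2 * (50 * R)) ≤ b0 ^ (150 * R) := by
    calc (3 * b0) ^ (2 * (50 * R)) = ((3 * b0) ^ 2) ^ (50 * R) := by rw [pow_mul]
      _ ≤ (b0 ^ 3) ^ (50 * R) := by
          refine pow_le_pow_left₀ (by positivity) ?_ _
          nlinarith [sq_nonneg b0]
      _ = b0 ^ (150 * R) := by rw [← pow_mul]; congr 1; ring
  have h5 : (1 * b0) ^ (2 * R) ≤ b0 ^ (150 * R) := by
    rw [one_mul]; exact pow_le_pow_right₀ hb1 (by omega)
  have h6 : b0 ^ (150 * R) * 11 ≤ b0 ^ (200 * R) := by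
    calc b0 ^ (150 * R) * 11 ≤ b0 ^ (150 * R) * b0 ^ (50 * R) := by
          refine mul_le_mul_of_nonneg_left ?_ (by positivity)
          calc (11:ℝ) ≤ b0 ^ 2 := by nlinarith
            _ ≤ _ := pow_le_pow_right₀ hb1 (by omega)
      _ = _ := by rw [← pow_add]; congr 1; ring
  have h7 := l1_add (nkE (50 * R) b I + baE R (fun _ => 1) I) (baE R c I)
  have h8 := l1_add (nkE (50 * R) b I) (baE R (fun _ => 1) I)
  linarith

lemma psP_Bd (hy : 1 ≤ y) (h : Rg k J I (bb y)) :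
    Bd (Real.exp (Real.log y * (400 * ((Rs:ℝ) + 1)))) (psP J Rs b c I) := by
  have h1 : Bd (∏ i ∈ range J, (bb y i) ^ (200 * (Rs + i))) (psP J Rs b c I) := by
    unfold psP
    refine Bd_prod J fun i hi => ?_
    have h2 := psE_Bd (b := b) (c := c) (b0 := bb y i) (by have := h.b10 i hi; linarith)
      (fun p hp => ⟨(h.pr i p hp).1, (h.pr i p hp).2.2⟩) (RR Rs i)
    rwa [show 100 * RR Rs i = 200 * (Rs + i) by unfold RR; ring] at h2
  refine h1.mono ((len hy Rs J 200).trans (le_of_eq ?_))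
  norm_num

lemma psP_l1 (hy : 1 ≤ y) (h : Rg k J I (bb y)) (hRs : 1 ≤ Rs) (hb : ∀ p, ‖b p‖ ≤ 3) (hcc : ∀ p, ‖c p‖ ≤ 1) :
    l1 (psP J Rs b c I) ≤ Real.exp (Real.log y * (800 * ((Rs:ℝ) + 1))) := by
  have h1 : l1 (psP J Rs b c I) ≤ ∏ i ∈ range J, (bb y i) ^ (400 * (Rs + i)) := by
    unfold psP
    refine l1_prod J (fun i _ => (pow_pos (bb_pos y i) _).le) fun i hi => ?_
    have h2 := psE_l1 (b := b) (c := c) (b0 := bb y i) (h.b10 i hi)
      (fun p hp => ⟨(h.pr i p hp).1, (h.pr i p hp).2.2⟩) (R := RR Rs i) (by unfold RR; omega) hb hcc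
    rwa [show 200 * RR Rs i = 400 * (Rs + i) by unfold RR; ring] at h2
  refine h1.trans ((len hy Rs J 400).trans (le_of_eq ?_))
  norm_num

lemma cev_cont {M : ℝ} {f : CA} (hf : Bd M f) : Continuous fun t => cev t f := by
  simp_rw [cev_apply]
  refine continuous_finsetSum _ fun x hx => ?_
  exact continuous_const.mul (mh_cont (hf x hx).1.1 (hf x hx).1.2)

lemma psv_cont (hy : 1 ≤ y) (h : Rg k J I (bb y)) (Rs : ℕ) (b c : ℕ → ℂ) : Continuous (psv J Rs b c I) := by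
  have h1 := Complex.continuous_re.comp (cev_cont (psP_Bd (Rs := Rs) (b := b) (c := c) hy h))
  refine h1.congr fun t => ?_
  simp only [Function.comp]
  rw [cev_psP t J Rs b c fun i p hp => (h.pr i p hp).1, Complex.ofReal_re]

/-- the mean over `[0, T]` -/
theorem psv_int (hy : 1 ≤ y) (h : Rg k J I (bb y)) (hRs : 1 ≤ Rs) (hb : ∀ p, ‖b p‖ ≤ 3)
    (hcc : ∀ p, ‖c p‖ ≤ 1) {T : ℝ} (hT : 0 ≤ T) :
    ∫ t in (0:ℝ)..T, psv J Rs b c I t ≤ T * Real.exp ((∑ i ∈ range J, ∑ p ∈ I i, ‖b p‖ ^ 2 * (1 / (p:ℝ))) +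
      (216 * k + (3 + 12 * Real.exp (162 * k)) * 2)) + 2 * Real.exp (Real.log y * (1200 * ((Rs:ℝ) + 1))) := by
  have hpr : ∀ i, ∀ p ∈ I i, p.Prime := fun i p hp => (h.pr i p hp).1
  set M := Real.exp (Real.log y * (400 * ((Rs:ℝ) + 1))) with hM
  obtain ⟨N, hN⟩ := exists_nat_gt (max M y)
  have hMN : M < N := lt_of_le_of_lt (le_max_left _ _) hN
  have hyN : y < N := lt_of_le_of_lt (le_max_right _ _) hN
  have h1 := mv0 (N := N) (psP_Bd (Rs := Rs) (b := b) (c := c) hy h) hMN T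
  have e1 : ∫ t in (0:ℝ)..T, cev t (psP J Rs b c I) = ((∫ t in (0:ℝ)..T, psv J Rs b c I t : ℝ) : ℂ) := by
    rw [← intervalIntegral.integral_ofReal]
    refine intervalIntegral.integral_congr fun t _ => ?_
    exact cev_psP t J Rs b c hpr
  have e2 : ∫ θ, cet θ (psP J Rs b c I) ∂(TT N) = ((∫ θ, pst J Rs b c I θ ∂(TT N) : ℝ) : ℂ) := by
    rw [← integral_complex_ofReal]
    refine integral_congr_ae (Filter.Eventually.of_forall fun θ => ?_)
    exact cet_psP θ J Rs b c hpr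
  rw [e1, e2, ← Complex.ofReal_mul, ← Complex.ofReal_sub, Complex.norm_real, Real.norm_eq_abs] at h1
  have h2 := (abs_le.mp h1).2
  have h3 := pst_int (N := N) h hy hyN hRs hb hcc
  have h4 := psP_l1 (Rs := Rs) hy h hRs hb hcc
  have h5 : 2 * M * l1 (psP J Rs b c I) ≤ 2 * Real.exp (Real.log y * (1200 * ((Rs:ℝ) + 1))) := by
    calc 2 * M * l1 (psP J Rs b c I) ≤ 2 * M * Real.exp (Real.log y * (800 * ((Rs:ℝ) + 1))) :=
          mul_le_mul_of_nonneg_left h4 (by positivity)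
      _ = 2 * (M * Real.exp (Real.log y * (800 * ((Rs:ℝ) + 1)))) := by ring
      _ = _ := by rw [hM, ← Real.exp_add]; congr 2; ring
  have h6 := mul_le_mul_of_nonneg_left h3 hT
  linarith

end

end Pool.Agent.KS6_89.BT
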