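import Pool.Agent.KS6_89.BT.Ptw
import Pool.Graph.R_pool_sql_team_seeded_620a6dc7.H998_TS.Fin

set_option autoImplicit false

/-! The weighted moments of the prime sums with arbitrary coefficients over `[T^(3/4), T]`. -/

namespace Pool.Agent.KS6_89.BT

open Finset Filter MeasureTheory
open Pool.Agent.W184.NZ
open Pool.Agent.H306R2.SM (om cl Yf)
open Pool.Agent.H998_TS (yy BS BS_ex mj two_exp Adj Rok_ev zc gp_cII)

/-- the primes up to `y` -/
noncomputable def PR (y : ℝ) : Finset ℕ := (range (⌊y⌋₊ + 1)).filter Nat.Prime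

/-- the sum with arbitrary coefficients, centred -/
noncomputable def DS (β : ℝ) (c : ℕ → ℂ) (y t : ℝ) : ℝ :=
  ∑ p ∈ PR y, (c p * ((p:ℂ) ^ (-(1 / 2 + t * Complex.I)) - ((β / 2 / p : ℝ) : ℂ))).re

/-- its variance -/
noncomputable def VS (c : ℕ → ℂ) (y : ℝ) : ℝ := ∑ p ∈ PR y, ‖c p‖ ^ 2 / p

lemma VS_nonneg (c : ℕ → ℂ) (y : ℝ) : 0 ≤ VS c y := sum_nonneg fun _ _ => by positivity

lemma norm_term {p : ℕ} (hp : 0 < p) (t : ℝ) : ‖(p:ℂ) ^ (-(1 / 2 + t * Complex.I))‖ ≤ 1 := by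
  rw [Complex.norm_natCast_cpow_of_pos hp]
  refine Real.rpow_le_one_of_one_le_of_nonpos (by exact_mod_cast hp) ?_
  simp

lemma DS_term {β : ℝ} (h0 : 0 < β) (h4 : β < 4) {c : ℕ → ℂ} (hc : ∀ p, ‖c p‖ ≤ 1) {p : ℕ} (hp : p.Prime) (t : ℝ) :
    |(c p * ((p:ℂ) ^ (-(1 / 2 + t * Complex.I)) - ((β / 2 / p : ℝ) : ℂ))).re| ≤ 2 := by
  refine (Complex.abs_re_le_norm _).trans ?_
  rw [norm_mul]
  have h1 := norm_term hp.pos t
  have h2 : ‖((β / 2 / p : ℝ) : ℂ)‖ ≤ 1 := by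
    rw [Complex.norm_real, Real.norm_eq_abs, abs_of_nonneg (by positivity)]
    have : (2:ℝ) ≤ p := by exact_mod_cast hp.two_le
    rw [div_le_one (by linarith)]
    linarith
  calc ‖c p‖ * ‖(p:ℂ) ^ (-(1 / 2 + t * Complex.I)) - ((β / 2 / p : ℝ) : ℂ)‖ ≤ 1 * (1 + 1) :=
        mul_le_mul (hc p) ((norm_sub_le _ _).trans (add_le_add h1 h2)) (norm_nonneg _) zero_le_one
    _ = 2 := by norm_num

/-- the decomposition of a sum over the primes -/
lemma PR_decomp {y : ℝ} (hy : 144 ≤ y) {J : ℕ} (hJ : bb y J < 144) (F : ℕ → ℝ) :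
    ∑ p ∈ PR y, F p = (∑ i ∈ range J, ∑ p ∈ II y i, F p) + ∑ p ∈ (range 144).filter Nat.Prime, F p := by
  classical
  have hy0 : 0 ≤ y := by linarith
  rw [sum_II (by linarith)]
  set S := (range 144).filter Nat.Prime with hS
  have e : PR y = PF y (bb y J) ∪ S := by
    unfold PR
    ext p
    rw [mem_filter, mem_range, mem_union, mem_PF hy0, hS, mem_filter, mem_range]
    constructor
    · rintro ⟨h1, h2⟩
      have h3 : (p:ℝ) ≤ y := (Nat.le_floor_iff hy0).mp (by omega)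
      rcases lt_or_ge p 144 with h | h
      · exact Or.inr ⟨h, h2⟩
      · refine Or.inl ⟨h2, h, ?_, h3⟩
        have : (144:ℝ) ≤ p := by exact_mod_cast h
        linarith
    · rintro (h | h)
      · refine ⟨?_, h.1⟩
        have := Nat.le_floor h.2.2.2
        omega
      · refine ⟨?_, h.2⟩
        have : (144:ℕ) ≤ ⌊y⌋₊ := Nat.le_floor (by exact_mod_cast hy)
        omega
  have hd : Disjoint (PF y (bb y J)) S := by
    rw [disjoint_left]
    intro p hp hq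
    rw [mem_PF hy0] at hp
    rw [hS, mem_filter, mem_range] at hq
    omega
  rw [e, sum_union hd]

lemma VS_le {c : ℕ → ℂ} {y : ℝ} (hy : 144 ≤ y) {J : ℕ} (hJ : bb y J < 144) :
    ∑ i ∈ range J, ∑ p ∈ II y i, ‖c p‖ ^ 2 * (1 / (p:ℝ)) ≤ VS c y := by
  unfold VS
  rw [PR_decomp hy hJ]
  have : 0 ≤ ∑ p ∈ (range 144).filter Nat.Prime, ‖c p‖ ^ 2 / (p:ℝ) := sum_nonneg fun _ _ => by positivity
  simp_rw [mul_one_div]
  linarith

/-- the mean of the shifted products -/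
theorem psm {κ η d : ℝ} {Rs : ℕ} (hη1 : η * ((Rs:ℝ) + 1) ≤ 1 / 2400) (hRs : 1 ≤ Rs)
    (hd : 0 ≤ d) {β : ℝ} (h0 : 0 < β) (h4 : β < 4) : ∃ C : ℝ, 0 < C ∧ ∀ᶠ T : ℝ in atTop, ∀ J : ℕ, BS κ d η T J →
      ∀ c : ℕ → ℂ, (∀ p, ‖c p‖ ≤ 1) → ∀ s : ℝ, |s| ≤ 1 → s ^ 2 * VS c (yy η T) ≤ 1 →
      ∫ t in (T ^ ((3:ℝ)/4))..T, Real.exp (-(2 * s * (β / 2 * ∑ i ∈ range J, ∑ p ∈ II (yy η T) i,
          (c p).re * (1 / (p:ℝ))))) *
        psv J Rs (fun p => ((β / 2 : ℝ) : ℂ) + (s : ℂ) * c p) c (II (yy η T)) t ≤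
        C * (T * Real.log T ^ (β ^ 2 / 4)) := by
  set K : ℝ := 216 * κ + (3 + 12 * Real.exp (162 * κ)) * 2 with hK
  refine ⟨Real.exp (4 * d + 1 + K) + 2, by positivity, ?_⟩
  filter_upwards [Real.tendsto_log_atTop.eventually_ge_atTop 10, eventually_ge_atTop 1,
    Pool.Agent.H998_TS.pow_small (q := 1 / 2) (by norm_num) (Real.exp (4 * d))]
    with T h6 hT1 hps J hJ c hc s hs hsV
  obtain ⟨hy, hJ1, hJ2, hJ3⟩ := hJ
  set y := yy η T with hyd
  have hT0 : 0 < T := by linarith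
  set L := Real.log T with hL
  have hly : Real.log y = η * L := Real.log_exp _
  have hy1 : 1 ≤ y := by linarith
  have hL0 : 0 < L := by linarith
  set A : ℝ := T ^ ((3:ℝ)/4) with hA
  have hA0 : 0 < A := by positivity
  have hAT : A ≤ T := by
    have : T ^ ((3:ℝ)/4) ≤ T ^ (1:ℝ) := Real.rpow_le_rpow_of_exponent_le hT1 (by norm_num)
    rwa [Real.rpow_one] at this
  set b : ℕ → ℂ := fun p => ((β / 2 : ℝ) : ℂ) + (s : ℂ) * c p with hb
  have hb3 : ∀ p, ‖b p‖ ≤ 3 := by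
    intro p
    simp only [hb]
    refine (norm_add_le _ _).trans ?_
    rw [norm_mul, Complex.norm_real, Complex.norm_real, Real.norm_eq_abs, Real.norm_eq_abs,
      abs_of_pos (by linarith : 0 < β / 2)]
    have := mul_le_mul hs (hc p) (norm_nonneg _) zero_le_one
    linarith
  have hgc := psv_cont hy1 hJ1 Rs b c
  set Mc := ∑ i ∈ range J, ∑ p ∈ II y i, (c p).re * (1 / (p:ℝ)) with hMc
  set V := ∑ i ∈ range J, vI (II y i) with hV
  set W := ∑ i ∈ range J, ∑ p ∈ II y i, ‖c p‖ ^ 2 * (1 / (p:ℝ)) with hW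
  have hWV : W ≤ VS c y := VS_le hy hJ2
  have hW0 : 0 ≤ W := sum_nonneg fun _ _ => sum_nonneg fun _ _ => by positivity
  have hMV : |Mc| ≤ V := by
    rw [hMc, hV]
    refine (abs_sum_le_sum_abs _ _).trans (sum_le_sum fun i _ => ?_)
    unfold vI
    refine (abs_sum_le_sum_abs _ _).trans (sum_le_sum fun p _ => ?_)
    rw [abs_mul, abs_of_nonneg (by positivity : (0:ℝ) ≤ 1 / p)]
    have := (Complex.abs_re_le_norm (c p)).trans (hc p)
    exact mul_le_of_le_one_left (by positivity) this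
  have hV1 : V ≤ Real.log L + d := by linarith [(abs_le.mp hJ3).2]
  have hV0 : 0 ≤ V := (abs_nonneg _).trans hMV
  have hF := psv_int hy1 hJ1 hRs hb3 hc hT0.le
  rw [← hK] at hF
  have hexp : (∑ i ∈ range J, ∑ p ∈ II y i, ‖b p‖ ^ 2 * (1 / (p:ℝ))) =
      β ^ 2 / 4 * V + s * β * Mc + s ^ 2 * W := by
    rw [hV, hMc, hW, mul_sum, mul_sum, mul_sum, ← sum_add_distrib, ← sum_add_distrib]
    refine sum_congr rfl fun i _ => ?_
    unfold vI
    rw [mul_sum, mul_sum, mul_sum, ← sum_add_distrib, ← sum_add_distrib]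
    refine sum_congr rfl fun p _ => ?_
    have e : ‖b p‖ ^ 2 = β ^ 2 / 4 + s * β * (c p).re + s ^ 2 * ‖c p‖ ^ 2 := by
      simp only [hb]
      rw [Complex.sq_norm, Complex.sq_norm, Complex.normSq_apply, Complex.normSq_apply, Complex.add_re,
        Complex.add_im, Complex.re_ofReal_mul, Complex.im_ofReal_mul, Complex.ofReal_re, Complex.ofReal_im]
      ring
    rw [e]; ring
  rw [hexp] at hF
  have h1 : ∫ t in A..T, psv J Rs b c (II y) t ≤ ∫ t in (0:ℝ)..T, psv J Rs b c (II y) t := by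
    have := intervalIntegral.integral_add_adjacent_intervals (hgc.intervalIntegrable 0 A)
      (hgc.intervalIntegrable A T) (μ := volume)
    have h2 : 0 ≤ ∫ t in (0:ℝ)..A, psv J Rs b c (II y) t :=
      intervalIntegral.integral_nonneg hA0.le fun t _ => psv_nonneg _ _ _ _ _ _
    linarith
  have hP1 : 1 ≤ L ^ (β ^ 2 / 4) := Real.one_le_rpow (by linarith) (by positivity)
  set Ex := Real.exp (-(2 * s * (β / 2 * Mc))) with hEx
  have hEx0 : 0 < Ex := Real.exp_pos _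
  have m1 : Ex * (T * Real.exp (β ^ 2 / 4 * V + s * β * Mc + s ^ 2 * W + K)) ≤
      T * (L ^ (β ^ 2 / 4) * Real.exp (4 * d + 1 + K)) := by
    have e1 : Ex * (T * Real.exp (β ^ 2 / 4 * V + s * β * Mc + s ^ 2 * W + K)) =
        T * Real.exp (β ^ 2 / 4 * V + s ^ 2 * W + K) := by
      rw [hEx, mul_left_comm, ← Real.exp_add]
      congr 2; ring
    rw [e1]
    refine mul_le_mul_of_nonneg_left ?_ hT0.le
    rw [Real.rpow_def_of_pos hL0, ← Real.exp_add]
    refine Real.exp_le_exp.mpr ?_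
    have c1 : s ^ 2 * W ≤ 1 := le_trans (mul_le_mul_of_nonneg_left hWV (sq_nonneg s)) hsV
    have c2 : β ^ 2 / 4 * V ≤ β ^ 2 / 4 * (Real.log L + d) := mul_le_mul_of_nonneg_left hV1 (by positivity)
    have c3 : β ^ 2 / 4 * d ≤ 4 * d := mul_le_mul_of_nonneg_right (by nlinarith) hd
    linarith
  have m2 : Ex * (2 * Real.exp (Real.log y * (1200 * ((Rs:ℝ) + 1)))) ≤ 2 * (T * L ^ (β ^ 2 / 4)) := by
    have c1 : Ex ≤ Real.exp (4 * d) * L ^ 4 := by
      have e1 : L ^ 4 = Real.exp (4 * Real.log L) := by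
        rw [show (4:ℝ) * Real.log L = ((4:ℕ):ℝ) * Real.log L by norm_num, Real.exp_nat_mul, Real.exp_log hL0]
      rw [e1, ← Real.exp_add, hEx]
      refine Real.exp_le_exp.mpr ?_
      have c2 : -(2 * s * (β / 2 * Mc)) ≤ 4 * V := by
        have c3 : |2 * s * (β / 2 * Mc)| ≤ 4 * V := by
          rw [abs_mul, abs_mul, abs_mul, abs_of_pos (by norm_num : (0:ℝ) < 2),
            abs_of_pos (by linarith : 0 < β / 2)]
          have d1 : β / 2 * |Mc| ≤ 2 * V := mul_le_mul (by linarith) hMV (abs_nonneg _) (by norm_num)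
          have d2 : |s| * (β / 2 * |Mc|) ≤ 1 * (2 * V) := mul_le_mul hs d1 (by positivity) zero_le_one
          linarith
        linarith [neg_abs_le (2 * s * (β / 2 * Mc))]
      linarith
    have c4 : Real.exp (Real.log y * (1200 * ((Rs:ℝ) + 1))) ≤ T ^ ((1:ℝ) / 2) := by
      rw [hly, Real.rpow_def_of_pos hT0]
      refine Real.exp_le_exp.mpr ?_
      have : η * L * (1200 * ((Rs:ℝ) + 1)) = 1200 * (η * ((Rs:ℝ) + 1)) * L := by ring
      rw [this]
      have h9 : 1200 * (η * ((Rs:ℝ) + 1)) * L ≤ 1 / 2 * L := mul_le_mul_of_nonneg_right (by linarith) hL0.le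
      linarith
    have hT12 : 0 < T ^ ((1:ℝ) / 2) := Real.rpow_pos_of_pos hT0 _
    calc Ex * (2 * Real.exp (Real.log y * (1200 * ((Rs:ℝ) + 1)))) ≤
        (Real.exp (4 * d) * L ^ 4) * (2 * T ^ ((1:ℝ) / 2)) := by gcongr
      _ = 2 * (Real.exp (4 * d) * (T ^ ((1:ℝ) / 2) * L ^ 4)) := by ring
      _ ≤ 2 * (Real.exp (4 * d) * (T ^ ((1:ℝ) / 2) * (1 + L ^ 4))) := by gcongr; linarith
      _ ≤ 2 * T := mul_le_mul_of_nonneg_left hps (by norm_num)
      _ ≤ _ := mul_le_mul_of_nonneg_left (le_mul_of_one_le_right hT0.le hP1) (by norm_num)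
  rw [intervalIntegral.integral_const_mul]
  calc Ex * ∫ t in A..T, psv J Rs b c (II y) t ≤
      Ex * (T * Real.exp (β ^ 2 / 4 * V + s * β * Mc + s ^ 2 * W + K) +
        2 * Real.exp (Real.log y * (1200 * ((Rs:ℝ) + 1)))) := mul_le_mul_of_nonneg_left (h1.trans hF) hEx0.le
    _ = Ex * (T * Real.exp (β ^ 2 / 4 * V + s * β * Mc + s ^ 2 * W + K)) +
        Ex * (2 * Real.exp (Real.log y * (1200 * ((Rs:ℝ) + 1)))) := mul_add _ _ _
    _ ≤ T * (L ^ (β ^ 2 / 4) * Real.exp (4 * d + 1 + K)) + 2 * (T * L ^ (β ^ 2 / 4)) := add_le_add m1 m2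
    _ = _ := by ring

lemma PC_one (I : Finset ℕ) (s : ℂ) : PC (fun _ => 1) I s = PI I s := by
  unfold PC PI
  exact sum_congr rfl fun p _ => one_mul _

lemma PC_lin (β s : ℝ) (c : ℕ → ℂ) (I : Finset ℕ) (u : ℂ) :
    PC (fun p => ((β / 2 : ℝ) : ℂ) + (s : ℂ) * c p) I u = ((β / 2 : ℝ) : ℂ) * PI I u + (s : ℂ) * PC c I u := by
  unfold PC PI
  rw [mul_sum, mul_sum, ← sum_add_distrib]
  exact sum_congr rfl fun p _ => by ring

lemma Ps_eq (β : ℝ) (J Rs : ℕ) (s : ℝ) (c : ℕ → ℂ) (I : ℕ → Finset ℕ) (t : ℝ) :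
    Ps β J Rs s (fun i => PI (I i) (1 / 2 + t * Complex.I)) (fun i => PC c (I i) (1 / 2 + t * Complex.I)) =
      psv J Rs (fun p => ((β / 2 : ℝ) : ℂ) + (s : ℂ) * c p) c I t := by
  unfold Ps psv
  refine prod_congr rfl fun i _ => ?_
  rw [PC_lin, PC_one]

/-- the weighted integrand -/
noncomputable def FB (β : ℝ) (k : ℕ) (c : ℕ → ℂ) (y t : ℝ) : ℝ := ‖riemannZeta (cl t)‖ ^ β * |DS β c y t| ^ k

lemma FB_nonneg (β : ℝ) (k : ℕ) (c : ℕ → ℂ) (y t : ℝ) : 0 ≤ FB β k c y t := by unfold FB; positivity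

lemma DS_cont (β : ℝ) (c : ℕ → ℂ) (y : ℝ) : Continuous (DS β c y) := by
  unfold DS
  refine continuous_finsetSum _ fun p hp => ?_
  unfold PR at hp
  rw [mem_filter] at hp
  have hp0 : (p:ℂ) ≠ 0 := by exact_mod_cast hp.2.ne_zero
  refine Complex.continuous_re.comp (continuous_const.mul (Continuous.sub ?_ continuous_const))
  refine Continuous.const_cpow (by fun_prop) (Or.inl hp0)

/-- the decomposition of the centred sum -/
lemma DS_decomp {β : ℝ} (h0 : 0 < β) (h4 : β < 4) {c : ℕ → ℂ} (hc : ∀ p, ‖c p‖ ≤ 1) {y : ℝ} (hy : 144 ≤ y)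
    {J : ℕ} (hJ : bb y J < 144) (t : ℝ) :
    ∃ r : ℝ, |r| ≤ 288 ∧ DS β c y t = ∑ i ∈ range J, (PC c (II y i) (1 / 2 + t * Complex.I)).re -
      β / 2 * ∑ i ∈ range J, ∑ p ∈ II y i, (c p).re * (1 / (p:ℝ)) + r := by
  refine ⟨∑ p ∈ (range 144).filter Nat.Prime, (c p * ((p:ℂ) ^ (-(1 / 2 + t * Complex.I)) - ((β / 2 / p : ℝ) : ℂ))).re,
    ?_, ?_⟩
  · refine (abs_sum_le_sum_abs _ _).trans ?_
    calc _ ≤ ∑ _p ∈ (range 144).filter Nat.Prime, (2:ℝ) := by
          refine sum_le_sum fun p hp => ?_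
          rw [mem_filter] at hp
          exact DS_term h0 h4 hc hp.2 t
      _ = ((((range 144).filter Nat.Prime).card : ℕ) : ℝ) * 2 := by rw [sum_const, nsmul_eq_mul]
      _ ≤ 144 * 2 := by
          refine mul_le_mul_of_nonneg_right ?_ (by norm_num)
          have h1 : ((range 144).filter Nat.Prime).card ≤ 144 := by
            have := card_filter_le (range 144) Nat.Prime
            rwa [card_range] at this
          exact_mod_cast h1
      _ = 288 := by norm_num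
  · unfold DS
    rw [PR_decomp hy hJ]
    congr 1
    rw [mul_sum, ← sum_sub_distrib]
    refine sum_congr rfl fun i _ => ?_
    unfold PC
    rw [Complex.re_sum, mul_sum, ← sum_sub_distrib]
    refine sum_congr rfl fun p _ => ?_
    rw [mul_sub, Complex.sub_re, mul_comm (c p) (((β / 2 / p : ℝ)) : ℂ), Complex.re_ofReal_mul]
    ring

/-- the main estimate over `[T^(3/4), T]` -/
theorem mid2 {β : ℝ} (h0 : 0 < β) (h4 : β < 4) (k : ℕ) : ∃ η1 : ℝ, 0 < η1 ∧ ∀ η : ℝ, 0 < η → η ≤ η1 →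
    ∃ C : ℝ, 0 < C ∧ ∀ᶠ T : ℝ in atTop, ∀ c : ℕ → ℂ, (∀ p, ‖c p‖ ≤ 1) →
      ∫ t in (T ^ ((3:ℝ)/4))..T, FB β k c (yy η T) t ≤
        C * √(1 + VS c (yy η T)) ^ k * (T * Real.log T ^ (β ^ 2 / 4)) := by
  obtain ⟨j1, j2, hj1, hj2, a1, a2⟩ := two_exp h0 h4
  obtain ⟨κ, hκ, hBS⟩ := BS_ex
  obtain ⟨m, C0, hC0, hpt⟩ := ptw h0 h4 hj1 hj2 (a1.abs h0 h4) (a2.abs h0 h4) k (D := 288) (by norm_num)
  obtain ⟨η1, hη1, H1⟩ := mj h0 h4 a1 hκ
  obtain ⟨η2, hη2, H2⟩ := mj h0 h4 a2 hκ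
  obtain ⟨R1, hR1⟩ := Rok_ev κ
  obtain ⟨R2, hR2⟩ := Bg_ev m
  set Rs := max R1 (max R2 1) with hRs
  have hRs1 : 1 ≤ Rs := (le_max_right _ _).trans (le_max_right _ _)
  have hRok : Rok κ Rs := hR1 Rs (le_max_left _ _)
  have hBg : ∀ i, Bg m (RR Rs i) := fun i => hR2 _ (by
    have : R2 ≤ Rs := (le_max_left _ _).trans (le_max_right _ _)
    unfold RR; omega)
  have hRp : (0:ℝ) < (Rs:ℝ) + 1 := by positivity
  refine ⟨min (min η1 η2) (1 / 2400) / ((Rs:ℝ) + 1), by positivity, fun η hη hηle => ?_⟩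
  rw [le_div_iff₀ hRp] at hηle
  have l1 := hηle.trans (min_le_left _ _)
  have l2 : η * ((Rs:ℝ) + 1) ≤ 1 / 2400 := hηle.trans (min_le_right _ _)
  obtain ⟨d, hd, hB⟩ := hBS η hη
  obtain ⟨C1, hC1, g1⟩ := H1 Rs hRok η hη (l1.trans (min_le_left _ _)) d hd
  obtain ⟨C2, hC2, g2⟩ := H2 Rs hRok η hη (l1.trans (min_le_right _ _)) d hd
  obtain ⟨C3, hC3, g3⟩ := psm (κ := κ) l2 hRs1 hd h0 h4
  refine ⟨C0 * (C1 + C2 + 3 * C3), by positivity, ?_⟩
  filter_upwards [g1, g2, g3, hB, eventually_ge_atTop 1, Real.tendsto_log_atTop.eventually_ge_atTop 0]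
    with T g1 g2 g3 hB hT1 hL c hc
  obtain ⟨J, hJ⟩ := hB
  have g1 := g1 J hJ
  have g2 := g2 J hJ
  have g3 := g3 J hJ c hc
  obtain ⟨hJ0, hJ1, hJ2, hJ3⟩ := hJ
  set y := yy η T with hy
  set A : ℝ := T ^ ((3:ℝ)/4) with hA
  have hAT : A ≤ T := by
    have : T ^ ((3:ℝ)/4) ≤ T ^ (1:ℝ) := Real.rpow_le_rpow_of_exponent_le hT1 (by norm_num)
    rwa [Real.rpow_one] at this
  have hV0 := VS_nonneg c y
  set Y := √(1 + VS c y) with hY
  have hY1 : 1 ≤ Y := by rw [hY, Real.one_le_sqrt]; linarith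
  have hY2 : Y ^ 2 = 1 + VS c y := Real.sq_sqrt (by linarith)
  set s : ℝ := 1 / (6000 * Y) with hs
  have hs0 : 0 < s := by positivity
  have hs1 : s ≤ 1 := by
    rw [hs, div_le_one (by positivity)]; linarith
  have hsa : |s| ≤ 1 := by rw [abs_of_pos hs0]; exact hs1
  have hsV : s ^ 2 * VS c y ≤ 1 := by
    have e : s ^ 2 = 1 / (36000000 * Y ^ 2) := by rw [hs]; field_simp; norm_num
    rw [e, hY2, div_mul_eq_mul_div, div_le_one (by positivity)]
    linarith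
  have t1 := g3 s hsa hsV
  have t2 := g3 (-s) (by rw [abs_neg]; exact hsa) (by rw [neg_sq]; exact hsV)
  have t3 := g3 0 (by simp) (by simp)
  set M := β / 2 * ∑ i ∈ range J, ∑ p ∈ II y i, (c p).re * (1 / (p:ℝ)) with hM
  set G1 : ℝ → ℝ := fun t => ‖riemannZeta (cl t)‖ ^ j1 * gp J ((β - j1) / 2) (RR Rs) (II y) t with hG1
  set G2 : ℝ → ℝ := fun t => ‖riemannZeta (cl t)‖ ^ j2 * gp J ((β - j2) / 2) (RR Rs) (II y) t with hG2
  set P : ℝ → ℝ → ℝ := fun s t => Real.exp (-(2 * s * M)) *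
    psv J Rs (fun p => ((β / 2 : ℝ) : ℂ) + (s : ℂ) * c p) c (II y) t with hP
  have hc1 : Continuous G1 := (zc.pow j1).mul (gp_cII (by linarith) hJ1 _ Rs)
  have hc2 : Continuous G2 := (zc.pow j2).mul (gp_cII (by linarith) hJ1 _ Rs)
  have hcP : ∀ s, Continuous (P s) := fun s => continuous_const.mul (psv_cont (by linarith) hJ1 Rs _ _)
  have hle : ∀ t, FB β k c y t ≤ C0 * Y ^ k * ((G1 t + G2 t) + (P s t + P (-s) t + P 0 t)) := by
    intro t
    obtain ⟨r, hr, er⟩ := DS_decomp h0 h4 hc hJ0 hJ2 t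
    have := hpt J Rs (fun i => PI (II y i) (1 / 2 + t * Complex.I)) (fun i => PC c (II y i) (1 / 2 + t * Complex.I))
      ‖riemannZeta (cl t)‖ r M Y s hRs1 hBg (norm_nonneg _) hr hY1 hs
    rw [Ps_eq, Ps_eq, Ps_eq] at this
    unfold FB
    rw [er]
    refine this.trans (le_of_eq ?_)
    simp only [hP, hG1, hG2]
    unfold gp
    congr 3
    · congr 2
      ring_nf
    · simp
  have hc3 : Continuous fun t => (G1 t + G2 t) + (P s t + P (-s) t + P 0 t) :=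
    (hc1.add hc2).add (((hcP s).add (hcP (-s))).add (hcP 0))
  have hint : IntegrableOn (fun t => C0 * Y ^ k * ((G1 t + G2 t) + (P s t + P (-s) t + P 0 t))) (Set.Ioc A T) :=
    ((continuous_const.mul hc3).integrableOn_Icc (a := A) (b := T)).mono_set Set.Ioc_subset_Icc_self
  have iG1 := hc1.intervalIntegrable (μ := volume) A T
  have iG2 := hc2.intervalIntegrable (μ := volume) A T
  have iP1 := (hcP s).intervalIntegrable (μ := volume) A T
  have iP2 := (hcP (-s)).intervalIntegrable (μ := volume) A T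
  have iP3 := (hcP 0).intervalIntegrable (μ := volume) A T
  calc ∫ t in A..T, FB β k c y t = ∫ t in Set.Ioc A T, FB β k c y t := intervalIntegral.integral_of_le hAT
    _ ≤ ∫ t in Set.Ioc A T, C0 * Y ^ k * ((G1 t + G2 t) + (P s t + P (-s) t + P 0 t)) :=
        integral_mono_of_nonneg (Eventually.of_forall fun t => FB_nonneg _ _ _ _ _) hint
          (Eventually.of_forall hle)
    _ = C0 * Y ^ k * (((∫ t in A..T, G1 t) + ∫ t in A..T, G2 t) +
          ((∫ t in A..T, P s t) + (∫ t in A..T, P (-s) t) + ∫ t in A..T, P 0 t)) := by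
        rw [← intervalIntegral.integral_of_le hAT, intervalIntegral.integral_const_mul,
          intervalIntegral.integral_add (iG1.add iG2) ((iP1.add iP2).add iP3),
          intervalIntegral.integral_add iG1 iG2, intervalIntegral.integral_add (iP1.add iP2) iP3,
          intervalIntegral.integral_add iP1 iP2]
    _ ≤ C0 * Y ^ k * ((C1 * (T * Real.log T ^ (β ^ 2 / 4)) + C2 * (T * Real.log T ^ (β ^ 2 / 4))) +
          (C3 * (T * Real.log T ^ (β ^ 2 / 4)) + C3 * (T * Real.log T ^ (β ^ 2 / 4)) +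
            C3 * (T * Real.log T ^ (β ^ 2 / 4)))) := by
        gcongr
    _ = _ := by ring

end Pool.Agent.KS6_89.BT
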