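import Pool.Agent.KS6_89.BT.CA
import Pool.Graph.R_seed8.TH806.Tor8

set_option autoImplicit false

/-! Mean values over `[0, T]` as averages over the torus. -/

namespace Pool.Agent.KS6_89.BT

open Finset MonoidAlgebra MeasureTheory
open Pool.Agent.W184.NZ (mh NK w0 mh_cont mh_norm_le)
open Pool.Agent.TH806 (Ix TT mt mt_apply mt_cont mt_norm_le chi int_chi PP Pk natCast_half ix_two)

lemma mh_exp (t : ℝ) {m n : ℕ} (hm : m ≠ 0) (hn : n ≠ 0) :
    mh t (m, n) = ((((m:ℝ) * n) ^ (-(1 / 2 : ℝ)) : ℝ) : ℂ) *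
      Complex.exp (((Real.log n - Real.log m : ℝ) : ℂ) * Complex.I * t) := by
  have m0 : (0:ℝ) < m := by exact_mod_cast Nat.pos_of_ne_zero hm
  have n0 : (0:ℝ) < n := by exact_mod_cast Nat.pos_of_ne_zero hn
  have e0 : mh t (m, n) = (m : ℂ) ^ (-(1 / 2 + t * Complex.I)) * (n : ℂ) ^ (-(1 / 2 - t * Complex.I)) := rfl
  have mc : (m:ℂ) ≠ 0 := by exact_mod_cast hm
  have nc : (n:ℂ) ≠ 0 := by exact_mod_cast hn
  have e1 : ((m:ℝ) * n) ^ (-(1 / 2 : ℝ)) = Real.exp (-(Real.log m + Real.log n) / 2) := by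
    rw [Real.rpow_def_of_pos (by positivity), Real.log_mul m0.ne' n0.ne']
    congr 1; ring
  rw [e0, e1, Complex.cpow_def_of_ne_zero mc, Complex.cpow_def_of_ne_zero nc, ← Complex.exp_add,
      Complex.ofReal_exp, ← Complex.exp_add, ← Complex.natCast_log, ← Complex.natCast_log]
  congr 1
  push_cast
  ring

lemma int_mhc {N : ℝ} {m n : ℕ} (hm : m ≠ 0) (hn : n ≠ 0) (hmN : (m:ℝ) ≤ N) (hnN : (n:ℝ) ≤ N) (T : ℝ) :
    ‖(∫ t in (0:ℝ)..T, mh t (m, n)) - T * (w0 (m, n) : ℂ)‖ ≤ 2 * N := by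
  have m0 : (0:ℝ) < m := by exact_mod_cast Nat.pos_of_ne_zero hm
  have n0 : (0:ℝ) < n := by exact_mod_cast Nat.pos_of_ne_zero hn
  have hN1 : 0 < N := m0.trans_le hmN
  simp_rw [mh_exp _ hm hn]
  rw [intervalIntegral.integral_const_mul]
  unfold w0
  by_cases h : m = n
  · subst h
    simp only [sub_self, Complex.ofReal_zero, zero_mul, Complex.exp_zero, intervalIntegral.integral_const,
      sub_zero, if_true]
    have e : ((m:ℝ) * m) ^ (-(1 / 2 : ℝ)) = 1 / m := by
      rw [← pow_two, ← Real.rpow_natCast, ← Real.rpow_mul m0.le]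
      norm_num
      rw [Real.rpow_neg_one]
    rw [e]
    have : ((1 / (m:ℝ) : ℝ) : ℂ) * (T • (1:ℂ)) - T * ((1 / (m:ℝ) : ℝ) : ℂ) = 0 := by
      rw [Complex.real_smul]; ring
    rw [this, norm_zero]
    positivity
  · simp only [h, if_false, Complex.ofReal_zero, mul_zero, sub_zero]
    have key : ∀ a b : ℕ, a ≠ 0 → a < b → (b:ℝ) ≤ N → 1 / N ≤ Real.log b - Real.log a := by
      intro a b ha hab hb
      have h2 := Pool.Agent.W184.log_gap (Nat.pos_of_ne_zero ha) hab
      refine le_trans ?_ h2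
      have b0 : (0:ℝ) < b := by exact_mod_cast (by omega : 0 < b)
      have h3 : (1:ℝ) ≤ (b:ℝ) - a := by
        have : (a:ℝ) + 1 ≤ b := by exact_mod_cast hab
        linarith
      exact div_le_div₀ (by linarith) h3 b0 hb
    have h4 : 1 / N ≤ |Real.log n - Real.log m| := by
      rcases lt_or_gt_of_ne h with h5 | h5
      · exact (key m n hm h5 hnN).trans (le_abs_self _)
      · rw [abs_sub_comm]
        exact (key n m hn h5 hmN).trans (le_abs_self _)
    have h0 : Real.log n - Real.log m ≠ 0 := by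
      intro h5
      rw [h5, abs_zero] at h4
      have : 0 < 1 / N := by positivity
      linarith
    have hc : ((Real.log n - Real.log m : ℝ) : ℂ) * Complex.I ≠ 0 :=
      mul_ne_zero (by exact_mod_cast h0) Complex.I_ne_zero
    rw [norm_mul, Complex.norm_real, Real.norm_eq_abs, integral_exp_mul_complex hc, norm_div, norm_mul,
      Complex.norm_I, mul_one, Complex.norm_real, Real.norm_eq_abs]
    have h1 : |((m:ℝ) * n) ^ (-(1 / 2 : ℝ))| ≤ 1 := by
      rw [abs_of_nonneg (by positivity)]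
      refine Real.rpow_le_one_of_one_le_of_nonpos ?_ (by norm_num)
      have a1 : (1:ℝ) ≤ m := by exact_mod_cast Nat.pos_of_ne_zero hm
      have a2 : (1:ℝ) ≤ n := by exact_mod_cast Nat.pos_of_ne_zero hn
      nlinarith
    have e1 : ∀ s : ℝ, ‖Complex.exp (((Real.log n - Real.log m : ℝ) : ℂ) * Complex.I * s)‖ = 1 := by
      intro s
      have : ((Real.log n - Real.log m : ℝ) : ℂ) * Complex.I * s =
          (((Real.log n - Real.log m) * s : ℝ) : ℂ) * Complex.I := by push_cast; ring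
      rw [this, Complex.norm_exp_ofReal_mul_I]
    have h6 : ‖Complex.exp (((Real.log n - Real.log m : ℝ) : ℂ) * Complex.I * T) -
        Complex.exp (((Real.log n - Real.log m : ℝ) : ℂ) * Complex.I * ((0:ℝ) : ℂ))‖ ≤ 2 := by
      refine (norm_sub_le _ _).trans ?_
      rw [e1, e1]; norm_num
    have h7 : 2 / |Real.log n - Real.log m| ≤ 2 * N := by
      rw [div_le_iff₀ (by positivity)]
      calc (2:ℝ) = 2 * N * (1 / N) := by field_simp
        _ ≤ _ := mul_le_mul_of_nonneg_left h4 (by positivity)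
    have h8 : 0 < |Real.log n - Real.log m| := abs_pos.mpr h0
    calc _ ≤ 1 * (2 / |Real.log n - Real.log m|) := by gcongr
      _ ≤ 2 * N := by rw [one_mul]; exact h7

lemma ec_Pk_zero (x : ℝ) : Pk 0 x = 1 := by
  unfold Pk; simp

lemma int_mt0 {N : ℕ} {x : ℕ × ℕ} (h1 : x.1 ≠ 0) (h2 : x.2 ≠ 0) (hN1 : x.1 < N) (hN2 : x.2 < N) :
    ∫ θ, mt θ x ∂(TT N) = (w0 x : ℂ) := by
  have h := int_chi (N := N) (a := fun _ => 0) (fun p => by simp) x.1 x.2
  have e1 : ∀ θ : Ix N → ℝ, mt θ x = (x.1 : ℂ) ^ (-(1 / 2) : ℂ) * (x.2 : ℂ) ^ (-(1 / 2) : ℂ) *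
      (chi θ x.1 * (starRingEnd ℂ) (chi θ x.2) * PP (fun _ => 0) θ) := by
    intro θ
    have : PP (fun _ : Ix N => (0:ℂ)) θ = 1 := by
      unfold PP; exact prod_eq_one fun p _ => ec_Pk_zero _
    rw [this, mt_apply]; ring
  simp_rw [e1]
  rw [integral_const_mul, h]
  unfold w0
  by_cases heq : x.1 = x.2
  · rw [if_pos heq]
    have h3 : ∏ p : Ix N, (0:ℂ) ^ ((x.1.factorization p.1 : ℤ) - x.2.factorization p.1).natAbs = 1 := by
      refine prod_eq_one fun p _ => ?_
      rw [heq, sub_self, Int.natAbs_zero, pow_zero]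
    rw [h3, mul_one, ← heq]
    have hx : (x.1 : ℂ) ≠ 0 := by exact_mod_cast h1
    rw [← Complex.cpow_add _ _ hx]
    have e2 : (-(1 / 2) : ℂ) + (-(1 / 2) : ℂ) = ((-1 : ℤ) : ℂ) := by norm_num
    rw [e2, Complex.cpow_intCast]
    push_cast
    rw [zpow_neg_one, one_div]
  · rw [if_neg heq]
    have h3 : ∏ p : Ix N, (0:ℂ) ^ ((x.1.factorization p.1 : ℤ) - x.2.factorization p.1).natAbs = 0 := by
      have hne : x.1.factorization ≠ x.2.factorization := fun he =>
        heq (Nat.factorization_inj h1 h2 he)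
      obtain ⟨p, hp⟩ := Finsupp.ne_iff.mp hne
      have hpp : p.Prime := by
        by_contra hcon
        rw [Nat.factorization_eq_zero_of_not_prime _ hcon, Nat.factorization_eq_zero_of_not_prime _ hcon] at hp
        exact hp rfl
      have hpN : p < N := by
        by_contra hcon
        push Not at hcon
        rw [Nat.factorization_eq_zero_of_lt (by omega), Nat.factorization_eq_zero_of_lt (by omega)] at hp
        exact hp rfl
      refine prod_eq_zero (mem_univ (⟨p, Nat.mem_primesBelow.mpr ⟨hpN, hpp⟩⟩ : Ix N)) ?_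
      refine zero_pow ?_
      simp only
      omega
    rw [h3]; simp

/-- mean values over `[0, T]` and averages over the torus -/
theorem mv0 {N : ℕ} {M : ℝ} {f : CA} (hf : Bd M f) (hN : M < N) (T : ℝ) :
    ‖(∫ t in (0:ℝ)..T, cev t f) - T * ∫ θ, cet θ f ∂(TT N)‖ ≤ 2 * M * l1 f := by
  have e1 : ∫ t in (0:ℝ)..T, cev t f = ∑ x ∈ f.coeff.support, f.coeff x * ∫ t in (0:ℝ)..T, mh t x := by
    simp_rw [cev_apply]
    rw [intervalIntegral.integral_finsetSum]
    · exact sum_congr rfl fun x _ => intervalIntegral.integral_const_mul _ _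
    · intro x hx
      exact (continuous_const.mul (mh_cont (hf x hx).1.1 (hf x hx).1.2)).intervalIntegrable _ _
  have e2 : ∫ θ, cet θ f ∂(TT N) = ∑ x ∈ f.coeff.support, f.coeff x * (w0 x : ℂ) := by
    simp_rw [cet_apply]
    rw [integral_finsetSum]
    · refine sum_congr rfl fun x hx => ?_
      rw [integral_const_mul, int_mt0 (hf x hx).1.1 (hf x hx).1.2]
      · exact_mod_cast lt_of_le_of_lt (hf x hx).2.1 hN
      · exact_mod_cast lt_of_le_of_lt (hf x hx).2.2 hN
    · intro x hx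
      refine Integrable.const_mul ?_ _
      exact Integrable.of_bound (C := 1) (mt_cont x).aestronglyMeasurable
        (Filter.Eventually.of_forall fun θ => mt_norm_le θ (hf x hx).1.1 (hf x hx).1.2)
  rw [e1, e2, mul_sum, ← sum_sub_distrib, l1, mul_sum]
  refine (norm_sum_le _ _).trans (sum_le_sum fun x hx => ?_)
  have e3 : f.coeff x * (∫ t in (0:ℝ)..T, mh t x) - T * (f.coeff x * (w0 x : ℂ)) =
      f.coeff x * ((∫ t in (0:ℝ)..T, mh t x) - T * (w0 x : ℂ)) := by ring
  rw [e3, norm_mul, mul_comm]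
  refine mul_le_mul_of_nonneg_right ?_ (norm_nonneg _)
  obtain ⟨m, n⟩ := x
  exact int_mhc (hf _ hx).1.1 (hf _ hx).1.2 (hf _ hx).2.1 (hf _ hx).2.2 T

end Pool.Agent.KS6_89.BT
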