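import Pool.Agent.KS6_89.BT.Tl

set_option autoImplicit false

/-! The average of the exponential of a linear form over one prime. -/

namespace Pool.Agent.KS6_89.BT

open Finset MeasureTheory
open Pool.Agent.TH806 (uu ec ec_norm ec_cont exp_cubic' int_re_ec int_re_integrable re_sq)

lemma exp_le_sq (y : ℝ) : Real.exp y ≤ y + Real.exp (y ^ 2) := by
  rcases le_or_gt |y| 1 with h | h
  · have h1 := Real.abs_exp_sub_one_sub_id_le h
    have h2 := Real.add_one_le_exp (y ^ 2)
    have h3 := (abs_le.mp h1).2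
    linarith
  · rcases le_or_gt 0 y with h0 | h0
    · rw [abs_of_nonneg h0] at h
      have : Real.exp y ≤ Real.exp (y ^ 2) := Real.exp_le_exp.mpr (by nlinarith)
      linarith
    · rw [abs_of_neg h0] at h
      have h1 : Real.exp y ≤ 1 := Real.exp_le_one_iff.mpr h0.le
      have h2 := Real.add_one_le_exp (y ^ 2)
      nlinarith

lemma re_le (c : ℂ) (x : ℝ) : |(c * ec x).re| ≤ ‖c‖ := by
  have := Complex.abs_re_le_norm (c * ec x)
  rwa [norm_mul, ec_norm, mul_one] at this

/-- a bound for all coefficients -/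
theorem op_crude (c : ℂ) : ∫ x, Real.exp ((c * ec x).re) ∂uu ≤ Real.exp (‖c‖ ^ 2) := by
  have i1 : Integrable (fun x : ℝ => (c * ec x ^ 1).re) uu := int_re_integrable _ _
  simp only [pow_one] at i1
  have h1 : ∫ x, Real.exp ((c * ec x).re) ∂uu ≤ ∫ x, ((c * ec x).re + Real.exp (‖c‖ ^ 2)) ∂uu := by
    refine integral_mono_of_nonneg (Filter.Eventually.of_forall fun x => (Real.exp_pos _).le)
      (i1.add (integrable_const _)) (Filter.Eventually.of_forall fun x => ?_)
    simp only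
    have h2 := exp_le_sq (c * ec x).re
    have h3 : (c * ec x).re ^ 2 ≤ ‖c‖ ^ 2 := by
      rw [← sq_abs]
      exact pow_le_pow_left₀ (abs_nonneg _) (re_le c x) 2
    have h4 : Real.exp ((c * ec x).re ^ 2) ≤ Real.exp (‖c‖ ^ 2) := Real.exp_le_exp.mpr h3
    linarith
  refine h1.trans (le_of_eq ?_)
  have h2 := int_re_ec c (k := 1) one_ne_zero
  simp only [pow_one] at h2
  rw [integral_add i1 (integrable_const _), h2]
  simp

/-- a sharp bound for small coefficients -/
theorem op_sharp {c : ℂ} (hc : ‖c‖ ≤ 1) :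
    ∫ x, Real.exp ((c * ec x).re) ∂uu ≤ Real.exp (‖c‖ ^ 2 / 4 + ‖c‖ ^ 3) := by
  have i1 : Integrable (fun x : ℝ => (c * ec x ^ 1).re) uu := int_re_integrable _ _
  have i2 : Integrable (fun x : ℝ => (c ^ 2 / 4 * ec x ^ 2).re) uu := int_re_integrable _ _
  have i12 : Integrable (fun x : ℝ => (c * ec x ^ 1).re + (c ^ 2 / 4 * ec x ^ 2).re) uu := i1.add i2
  have h1 : ∫ x, Real.exp ((c * ec x).re) ∂uu ≤ ∫ x, ((1 + ‖c‖ ^ 2 / 4 + ‖c‖ ^ 3) +
      ((c * ec x ^ 1).re + (c ^ 2 / 4 * ec x ^ 2).re)) ∂uu := by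
    refine integral_mono_of_nonneg (Filter.Eventually.of_forall fun x => (Real.exp_pos _).le)
      ((integrable_const _).add i12) (Filter.Eventually.of_forall fun x => ?_)
    simp only [pow_one]
    have h2 := re_le c x
    have h3 := exp_cubic' (h2.trans hc)
    have h4 : |(c * ec x).re| ^ 3 ≤ ‖c‖ ^ 3 := pow_le_pow_left₀ (abs_nonneg _) h2 3
    have h5 := re_sq (c * ec x)
    rw [norm_mul, ec_norm, mul_one, mul_pow] at h5
    have h6 : (c ^ 2 / 4 * ec x ^ 2).re = (c ^ 2 * ec x ^ 2).re / 4 := by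
      have : c ^ 2 / 4 * ec x ^ 2 = ((1 / 4 : ℝ) : ℂ) * (c ^ 2 * ec x ^ 2) := by push_cast; ring
      rw [this, Complex.re_ofReal_mul]; ring
    rw [h6]
    linarith
  refine h1.trans ?_
  rw [integral_add (integrable_const _) i12, integral_add i1 i2, int_re_ec _ one_ne_zero,
    int_re_ec _ two_ne_zero]
  simp
  linarith [Real.add_one_le_exp (‖c‖ ^ 2 / 4 + ‖c‖ ^ 3)]

end Pool.Agent.KS6_89.BT
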