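import Pool.Agent.KS6_89.BT.M1
import Pool.Graph.R_pool_sql_team_seeded_620a6dc7.H998_TS.Pt

set_option autoImplicit false

/-! The pointwise inequality. -/

namespace Pool.Agent.KS6_89.BT

open Finset
open Pool.Agent.W184.NZ (NK NK_ge_of_cl cl_ten norm_exp_sq gf gf_nonneg RR)
open Pool.Agent.H998_TS (Gd Bd' mem_Gd mem_Bd' one_sub_prod sum_le_prod pow_log_bound prod_low Big)

/-- the blocks where the second sum is small -/
noncomputable def Wg (J Rs : ℕ) (w : ℕ → ℂ) : Finset ℕ := by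
  classical exact (range J).filter fun i => ‖w i‖ ≤ 3000 * (RR Rs i : ℝ)

/-- the other blocks -/
noncomputable def Wb (J Rs : ℕ) (w : ℕ → ℂ) : Finset ℕ := by
  classical exact (range J).filter fun i => ¬ ‖w i‖ ≤ 3000 * (RR Rs i : ℝ)

lemma mem_Wb {J Rs : ℕ} {w : ℕ → ℂ} {i : ℕ} : i ∈ Wb J Rs w ↔ i < J ∧ 3000 * (RR Rs i : ℝ) < ‖w i‖ := by
  unfold Wb; rw [mem_filter, mem_range, not_le]

lemma exp8 : Real.exp 8 ≤ 3000 := by
  have h := Real.exp_one_lt_d9
  have e : Real.exp 8 = Real.exp 1 ^ 8 := by rw [← Real.exp_nat_mul]; norm_num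
  rw [e]
  calc Real.exp 1 ^ 8 ≤ (2.7182818286 : ℝ) ^ 8 := by gcongr
    _ ≤ 3000 := by norm_num

/-- one block -/
lemma ps_block {β : ℝ} (h0 : 0 < β) (h4 : β < 4) {R : ℕ} (hR : 1 ≤ R) {s : ℝ} (hs : |s| * 3000 ≤ 1 / 2) (z w : ℂ)
    (P Q : Prop) [Decidable P] [Decidable Q] (hP : P ↔ ‖z‖ ≤ 2 * (R:ℝ)) (hQ : Q ↔ ‖w‖ ≤ 3000 * (R:ℝ)) :
    (1 - Real.exp (-(5 * (R:ℝ)))) ^ 2 * ((if P then Real.exp (β * z.re) else 1) *
      (if Q then Real.exp (2 * s * w.re) else (‖w‖ / R) ^ R)) ≤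
      psf R (((β / 2 : ℝ) : ℂ) * z + (s : ℂ) * w) z w := by
  have hR' : (1:ℝ) ≤ R := by exact_mod_cast hR
  have hR0 : (0:ℝ) < R := by linarith
  have hE : Real.exp (-(5 * (R:ℝ))) ≤ 1 := Real.exp_le_one_iff.mpr (by linarith)
  have hE0 : 0 < Real.exp (-(5 * (R:ℝ))) := Real.exp_pos _
  have hc1 : (1 - Real.exp (-(5 * (R:ℝ)))) ^ 2 ≤ 1 := by nlinarith
  have hc0 : 0 ≤ (1 - Real.exp (-(5 * (R:ℝ)))) ^ 2 := sq_nonneg _
  set zb := ((β / 2 : ℝ) : ℂ) * z + (s : ℂ) * w with hzb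
  have hred : ∀ a : ℝ, 0 ≤ a → a ≤ psf R zb z w → (1 - Real.exp (-(5 * (R:ℝ)))) ^ 2 * a ≤ psf R zb z w :=
    fun a ha h => (mul_le_of_le_one_left ha hc1).trans h
  have hz2 : |z.re| ≤ ‖z‖ := Complex.abs_re_le_norm z
  have hw2 : |w.re| ≤ ‖w‖ := Complex.abs_re_le_norm w
  have hA : 0 ≤ ‖NK (50 * R) (1:ℝ) zb‖ ^ 2 := by positivity
  have hB : 0 ≤ (‖z‖ / R) ^ (2 * R) := by positivity
  have hC : 0 ≤ (‖w‖ / R) ^ (2 * R) := by positivity
  -- w bad
  have hwb : ¬ ‖w‖ ≤ 3000 * (R:ℝ) → Real.exp (8 * R) * (‖w‖ / R) ^ R ≤ (‖w‖ / R) ^ (2 * R) := by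
    intro h
    push Not at h
    have h1 : (3000:ℝ) ≤ ‖w‖ / R := by rw [le_div_iff₀ hR0]; exact h.le
    have h2 : Real.exp (8 * R) ≤ (‖w‖ / R) ^ R := by
      have e : Real.exp (8 * (R:ℝ)) = Real.exp 8 ^ R := by rw [← Real.exp_nat_mul]; congr 1; ring
      rw [e]
      exact pow_le_pow_left₀ (Real.exp_pos _).le (exp8.trans h1) R
    calc Real.exp (8 * R) * (‖w‖ / R) ^ R ≤ (‖w‖ / R) ^ R * (‖w‖ / R) ^ R :=
          mul_le_mul_of_nonneg_right h2 (by positivity)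
      _ = _ := by rw [← pow_add, two_mul]
  by_cases hp : P
  · rw [if_pos hp]
    rw [hP] at hp
    by_cases hq : Q
    · rw [if_pos hq]
      rw [hQ] at hq
      have hn : ‖zb‖ ≤ 5 * (R:ℝ) := by
        have h1 : ‖zb‖ ≤ β / 2 * ‖z‖ + |s| * ‖w‖ := by
          rw [hzb]
          refine (norm_add_le _ _).trans ?_
          rw [norm_mul, norm_mul, Complex.norm_real, Complex.norm_real, Real.norm_eq_abs, Real.norm_eq_abs,
            abs_of_pos (by linarith : 0 < β / 2)]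
        have h2 : β / 2 * ‖z‖ ≤ 2 * (2 * R) := mul_le_mul (by linarith) hp (norm_nonneg _) (by norm_num)
        have h3 : |s| * ‖w‖ ≤ |s| * (3000 * R) := mul_le_mul_of_nonneg_left hq (abs_nonneg _)
        have h4 : |s| * (3000 * R) ≤ 1 / 2 * R := by
          rw [← mul_assoc]; exact mul_le_mul_of_nonneg_right hs hR0.le
        linarith
      have hcl := cl_ten (R := 5 * R) (by omega) (a := 1) (by norm_num)
      rw [show 10 * (5 * R) = 50 * R by ring] at hcl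
      have h1 := NK_ge_of_cl hcl (z := zb) (by push_cast; exact hn)
      push_cast at h1
      have h2 := pow_le_pow_left₀ (mul_nonneg (by linarith) (norm_nonneg _)) h1 2
      have e : Real.exp (β * z.re) * Real.exp (2 * s * w.re) = ‖Complex.exp (1 * zb)‖ ^ 2 := by
        have := norm_exp_sq 1 zb
        push_cast at this
        rw [this, ← Real.exp_add]
        congr 1
        rw [hzb, Complex.add_re, Complex.re_ofReal_mul, Complex.re_ofReal_mul]; ring
      rw [e, ← mul_pow]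
      unfold psf
      linarith
    · rw [if_neg hq]
      rw [hQ] at hq
      refine hred _ (by positivity) ?_
      have h1 : Real.exp (β * z.re) ≤ Real.exp (8 * R) := by
        refine Real.exp_le_exp.mpr ?_
        have h2 : β * z.re ≤ β * (2 * R) :=
          mul_le_mul_of_nonneg_left ((le_abs_self _).trans (hz2.trans hp)) h0.le
        have h3 : β * (2 * R) ≤ 4 * (2 * R) := mul_le_mul_of_nonneg_right h4.le (by linarith)
        linarith
      have h2 := mul_le_mul_of_nonneg_right h1 (show 0 ≤ (‖w‖ / R) ^ R by positivity)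
      have h3 := hwb hq
      unfold psf
      linarith
  · rw [if_neg hp]
    rw [hP] at hp
    push Not at hp
    by_cases hq : Q
    · rw [if_pos hq]
      rw [hQ] at hq
      refine hred _ (by positivity) ?_
      have h1 : 2 * s * w.re ≤ R := by
        have a1 : 2 * s * w.re ≤ 2 * (|s| * |w.re|) := by
          rw [← abs_mul]; linarith [le_abs_self (s * w.re)]
        have a2 : |s| * |w.re| ≤ |s| * (3000 * R) := mul_le_mul_of_nonneg_left (hw2.trans hq) (abs_nonneg _)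
        have a3 : |s| * (3000 * R) ≤ 1 / 2 * R := by
          rw [← mul_assoc]; exact mul_le_mul_of_nonneg_right hs hR0.le
        linarith
      have h2 : (2:ℝ) ≤ ‖z‖ / R := by rw [le_div_iff₀ hR0]; exact hp.le
      have h3 : Real.exp R ≤ (‖z‖ / R) ^ (2 * R) := by
        have e : Real.exp (R:ℝ) = Real.exp 1 ^ R := by rw [← Real.exp_nat_mul]; simp
        rw [e, pow_mul]
        refine pow_le_pow_left₀ (Real.exp_pos _).le ?_ R
        have := Real.exp_one_lt_d9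
        nlinarith
      have h4 : Real.exp (2 * s * w.re) ≤ Real.exp R := Real.exp_le_exp.mpr h1
      unfold psf
      linarith
    · rw [if_neg hq]
      rw [hQ] at hq
      refine hred _ (by positivity) ?_
      have h3 := hwb hq
      have h5 : 0 ≤ (‖w‖ / R) ^ R := by positivity
      have h4 : (‖w‖ / R) ^ R ≤ Real.exp (8 * R) * (‖w‖ / R) ^ R :=
        le_mul_of_one_le_left h5 (Real.one_le_exp (by linarith))
      unfold psf
      linarith

/-- the product of the values -/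
noncomputable def Ps (β : ℝ) (J Rs : ℕ) (s : ℝ) (z w : ℕ → ℂ) : ℝ :=
  ∏ i ∈ range J, psf (RR Rs i) (((β / 2 : ℝ) : ℂ) * z i + (s : ℂ) * w i) (z i) (w i)

lemma Ps_nonneg (β : ℝ) (J Rs : ℕ) (s : ℝ) (z w : ℕ → ℂ) : 0 ≤ Ps β J Rs s z w :=
  prod_nonneg fun _ _ => psf_nonneg _ _ _ _

lemma sum_exp5 {J Rs : ℕ} (hRs : 1 ≤ Rs) : ∑ i ∈ range J, Real.exp (-(5 * (RR Rs i : ℝ))) ≤ 1 / 4 := by
  have h1 : ∀ i, Real.exp (-(5 * (RR Rs i : ℝ))) ≤ 1 / 8 * (1 / 2) ^ i := by
    intro i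
    have h2 : (4:ℝ) + i ≤ 5 * (RR Rs i : ℝ) := by
      unfold RR
      push_cast
      have : (1:ℝ) ≤ Rs := by exact_mod_cast hRs
      have : (0:ℝ) ≤ i := Nat.cast_nonneg _
      linarith
    have h3 : Real.exp (-1) ≤ 1 / 2 := by
      rw [Real.exp_neg, inv_le_comm₀ (Real.exp_pos _) (by norm_num)]
      have := Real.exp_one_gt_d9
      linarith
    calc Real.exp (-(5 * (RR Rs i : ℝ))) ≤ Real.exp (-(4 + (i:ℝ))) := Real.exp_le_exp.mpr (by linarith)
      _ = Real.exp (-1) ^ (4 + i) := by rw [← Real.exp_nat_mul]; congr 1; push_cast; ring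
      _ ≤ (1 / 2) ^ (4 + i) := pow_le_pow_left₀ (Real.exp_pos _).le h3 _
      _ = 1 / 16 * (1 / 2) ^ i := by rw [pow_add]; norm_num
      _ ≤ _ := by
        have : (0:ℝ) < (1 / 2) ^ i := by positivity
        linarith
  calc _ ≤ ∑ i ∈ range J, 1 / 8 * (1 / 2 : ℝ) ^ i := sum_le_sum fun i _ => h1 i
    _ = 1 / 8 * ∑ i ∈ range J, (1 / 2 : ℝ) ^ i := by rw [mul_sum]
    _ ≤ 1 / 8 * 2 := by
        refine mul_le_mul_of_nonneg_left ?_ (by norm_num)
        have h5 := (summable_geometric_of_lt_one (show (0:ℝ) ≤ 1 / 2 by norm_num) (by norm_num)).sum_le_tsum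
          (range J) (fun i _ => by positivity)
        rw [tsum_geometric_of_lt_one (by norm_num) (by norm_num)] at h5
        norm_num at h5 ⊢
        exact h5
    _ = 1 / 4 := by norm_num

/-- the product over all blocks -/
lemma prodW {β : ℝ} (h0 : 0 < β) (h4 : β < 4) {J Rs : ℕ} (hRs : 1 ≤ Rs) {s : ℝ} (hs : |s| * 3000 ≤ 1 / 2)
    (z w : ℕ → ℂ) :
    Real.exp (β * ∑ i ∈ Gd J Rs z, (z i).re + 2 * s * ∑ i ∈ Wg J Rs w, (w i).re) *
      ∏ i ∈ Wb J Rs w, (‖w i‖ / RR Rs i) ^ (RR Rs i) ≤ 2 * Ps β J Rs s z w := by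
  classical
  set x : ℕ → ℝ := fun i => Real.exp (-(5 * (RR Rs i : ℝ))) with hx
  have hx0 : ∀ i, 0 ≤ x i := fun i => (Real.exp_pos _).le
  have hx1 : ∀ i, x i ≤ 1 := fun i => Real.exp_le_one_iff.mpr (by
    have : (0:ℝ) ≤ RR Rs i := Nat.cast_nonneg _
    linarith)
  have hsum := sum_exp5 (J := J) hRs
  have hpr := one_sub_prod (range J) (fun i _ => hx0 i) (fun i _ => hx1 i)
  have hpr2 : (1:ℝ) / 2 ≤ ∏ i ∈ range J, (1 - x i) ^ 2 := by
    rw [prod_pow]
    have : ∑ i ∈ range J, x i ≤ 1 / 4 := hsum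
    nlinarith
  set φ : ℕ → ℝ := fun i => (if ‖z i‖ ≤ 2 * (RR Rs i : ℝ) then Real.exp (β * (z i).re) else 1) *
      (if ‖w i‖ ≤ 3000 * (RR Rs i : ℝ) then Real.exp (2 * s * (w i).re) else (‖w i‖ / RR Rs i) ^ (RR Rs i)) with hφ
  have hφ0 : ∀ i, 0 ≤ φ i := fun i => by
    simp only [hφ]
    split_ifs <;> positivity
  have e1 : Real.exp (β * ∑ i ∈ Gd J Rs z, (z i).re + 2 * s * ∑ i ∈ Wg J Rs w, (w i).re) *
      ∏ i ∈ Wb J Rs w, (‖w i‖ / RR Rs i) ^ (RR Rs i) = ∏ i ∈ range J, φ i := by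
    simp only [hφ]
    rw [prod_mul_distrib, prod_ite, prod_ite]
    simp only [prod_const_one, mul_one]
    rw [Real.exp_add, mul_sum, mul_sum, Real.exp_sum, Real.exp_sum, mul_assoc]
    unfold Gd Wg Wb
    congr!
  have h1 : (∏ i ∈ range J, (1 - x i) ^ 2) * ∏ i ∈ range J, φ i ≤ Ps β J Rs s z w := by
    rw [← prod_mul_distrib]
    unfold Ps
    refine prod_le_prod (fun i _ => mul_nonneg (sq_nonneg _) (hφ0 i)) fun i _ => ?_
    exact ps_block h0 h4 (by unfold RR; omega) hs (z i) (w i) _ _ Iff.rfl Iff.rfl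
  rw [e1]
  have h2 : 0 ≤ ∏ i ∈ range J, φ i := prod_nonneg fun i _ => hφ0 i
  nlinarith

/-- condition on the parameter -/
def Bg (m R : ℕ) : Prop := m ≤ R ∧ (2 * (R:ℝ)) ^ m ≤ 2 ^ R

lemma Bg_ev (m : ℕ) : ∃ R0 : ℕ, ∀ R : ℕ, R0 ≤ R → Bg m R := by
  have h := tendsto_pow_const_div_const_pow_of_one_lt m (show (1:ℝ) < 2 by norm_num)
  have h1 := h.eventually (gt_mem_nhds (show (0:ℝ) < (1 / 2) ^ m by positivity))
  obtain ⟨n0, hn⟩ := Filter.eventually_atTop.mp h1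
  refine ⟨max n0 m, fun R hR => ⟨by omega, ?_⟩⟩
  have h2 := hn R (by omega)
  rw [div_lt_iff₀ (by positivity)] at h2
  rw [mul_pow]
  calc (2:ℝ) ^ m * (R:ℝ) ^ m ≤ 2 ^ m * ((1 / 2) ^ m * 2 ^ R) := by gcongr
    _ = (2 * (1 / 2)) ^ m * 2 ^ R := by rw [mul_pow]; ring
    _ = 2 ^ R := by norm_num

lemma wb_pow {m R : ℕ} (hR : 1 ≤ R) (h : Bg m R) {a : ℝ} (ha : 3000 * (R:ℝ) < a) : a ^ m ≤ (a / R) ^ R := by
  have hR' : (0:ℝ) < R := by exact_mod_cast hR
  set r := a / R with hr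
  have hr2 : 2 ≤ r := by rw [hr, le_div_iff₀ hR']; nlinarith
  have e : a = r * R := by rw [hr]; field_simp
  have h3 : (R:ℝ) ^ m ≤ r ^ (R - m) := by
    have h4 : (2:ℝ) ^ (R - m) ≤ r ^ (R - m) := pow_le_pow_left₀ (by norm_num) hr2 _
    refine le_trans ?_ h4
    have h5 : (2:ℝ) ^ m * (R:ℝ) ^ m ≤ 2 ^ m * 2 ^ (R - m) := by
      rw [← mul_pow, ← pow_add, show m + (R - m) = R by have := h.1; omega]
      exact h.2
    exact le_of_mul_le_mul_left h5 (by positivity)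
  rw [e, mul_pow]
  calc r ^ m * (R:ℝ) ^ m ≤ r ^ m * r ^ (R - m) := mul_le_mul_of_nonneg_left h3 (by positivity)
    _ = r ^ R := by rw [← pow_add]; congr 1; have := h.1; omega

/-- the bad part -/
lemma bad_part {m J Rs : ℕ} (hRs : 1 ≤ Rs) (hB : ∀ i, Bg m (RR Rs i)) (w : ℕ → ℂ) :
    |∑ i ∈ Wb J Rs w, (w i).re| ^ m ≤ ∏ i ∈ Wb J Rs w, (‖w i‖ / RR Rs i) ^ (RR Rs i) ∧
      1 ≤ ∏ i ∈ Wb J Rs w, (‖w i‖ / RR Rs i) ^ (RR Rs i) := by
  have hRR : ∀ i, 1 ≤ RR Rs i := fun i => by unfold RR; omega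
  have hRR' : ∀ i, (1:ℝ) ≤ RR Rs i := fun i => by exact_mod_cast hRR i
  have h2 : ∀ i ∈ Wb J Rs w, 2 ≤ ‖w i‖ := by
    intro i hi
    rw [mem_Wb] at hi
    nlinarith [hi.2, hRR' i]
  obtain ⟨hsp, hsp1⟩ := sum_le_prod (Wb J Rs w) (x := fun i => ‖w i‖) h2
  constructor
  · calc |∑ i ∈ Wb J Rs w, (w i).re| ^ m ≤ (∏ i ∈ Wb J Rs w, ‖w i‖) ^ m := by
          refine pow_le_pow_left₀ (abs_nonneg _) (le_trans ?_ hsp) m
          exact (abs_sum_le_sum_abs _ _).trans (sum_le_sum fun i _ => Complex.abs_re_le_norm _)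
      _ = ∏ i ∈ Wb J Rs w, ‖w i‖ ^ m := by rw [prod_pow]
      _ ≤ _ := by
          refine prod_le_prod (fun i _ => by positivity) fun i hi => ?_
          rw [mem_Wb] at hi
          exact wb_pow (hRR i) (hB i) hi.2
  · have : ∀ i ∈ Wb J Rs w, 1 ≤ (‖w i‖ / RR Rs i) ^ (RR Rs i) := by
      intro i hi
      rw [mem_Wb] at hi
      refine one_le_pow₀ ?_
      rw [le_div_iff₀ (by linarith [hRR' i])]
      nlinarith [hi.2, hRR' i]
    calc (1:ℝ) = ∏ _i ∈ Wb J Rs w, (1:ℝ) := by rw [prod_const_one]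
      _ ≤ _ := prod_le_prod (fun _ _ => zero_le_one) this

lemma lam_pow (k : ℕ) {δ l : ℝ} (hδ : 0 < δ) (hl : 0 ≤ l) :
    l ^ k ≤ (k.factorial / δ ^ k) * Real.exp (δ * l) := by
  have h := Real.pow_div_factorial_le_exp (δ * l) (by positivity) k
  rw [div_le_iff₀ (by positivity)] at h
  rw [div_mul_eq_mul_div, le_div_iff₀ (by positivity), ← mul_pow, mul_comm l δ]
  linarith

/-- the pointwise inequality -/
theorem ptw {β : ℝ} (h0 : 0 < β) (hβ4 : β < 4) {j1 j2 : ℕ} (h1 : (j1:ℝ) < β) (h2 : β < j2)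
    (h3 : |(β - j1) / 2| ≤ 1) (h4 : |(β - j2) / 2| ≤ 1) (k : ℕ) {D : ℝ} (hD : 0 ≤ D) :
    ∃ (m : ℕ) (C : ℝ), 0 < C ∧ ∀ (J Rs : ℕ) (z w : ℕ → ℂ) (x r M Y s : ℝ), 1 ≤ Rs →
      (∀ i, Bg m (RR Rs i)) → 0 ≤ x → |r| ≤ D → 1 ≤ Y → s = 1 / (6000 * Y) →
      x ^ β * |∑ i ∈ range J, (w i).re - M + r| ^ k ≤
        C * Y ^ k * ((x ^ j1 * ∏ i ∈ range J, gf (20 * RR Rs i) ((β - j1) / 2) (RR Rs i) (z i) +
          x ^ j2 * ∏ i ∈ range J, gf (20 * RR Rs i) ((β - j2) / 2) (RR Rs i) (z i)) +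
          (Real.exp (-(2 * s * M)) * Ps β J Rs s z w + Real.exp (2 * s * M) * Ps β J Rs (-s) z w +
            Ps β J Rs 0 z w)) := by
  classical
  obtain ⟨C1, hC1, hl1⟩ := pow_log_bound h1 h2 k
  obtain ⟨C2, hC2, hl2⟩ := pow_log_bound h1 h2 0
  obtain ⟨q, hq⟩ := exists_nat_gt (2 * β / (j2 - β))
  have hjb : 0 < (j2:ℝ) - β := by linarith
  set q' := q + 2 with hq'
  have hqq : β + 2 * β / q' ≤ j2 := by
    have hq0 : (0:ℝ) < q' := by rw [hq']; positivity
    rw [div_lt_iff₀ hjb] at hq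
    have : 2 * β / q' ≤ j2 - β := by
      rw [div_le_iff₀ hq0]
      have : (q:ℝ) ≤ q' := by rw [hq']; push_cast; linarith
      nlinarith
    linarith
  set δ : ℝ := 1 / 6000 with hδ
  have hδ0 : 0 < δ := by rw [hδ]; norm_num
  set A : ℝ := k.factorial / δ ^ k with hA
  have hA0 : 0 < A := by positivity
  refine ⟨k * q', 3 ^ k * (2 * A + 2 * (β / δ) ^ k * C1 + 4 + 2 * C2 * D ^ k), by positivity,
    fun J Rs z w x r M Y s hRs hB hx hr hY hs => ?_⟩
  have hY0 : 0 < Y := by linarith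
  have hs0 : 0 < s := by rw [hs]; positivity
  have hs1 : |s| * 3000 ≤ 1 / 2 := by
    rw [abs_of_pos hs0, hs, div_mul_eq_mul_div, div_le_iff₀ (by positivity)]
    nlinarith
  have hsn : |-s| * 3000 ≤ 1 / 2 := by rw [abs_neg]; exact hs1
  have hsz : |(0:ℝ)| * 3000 ≤ 1 / 2 := by simp
  have hsY : s * Y = δ := by rw [hs, hδ]; field_simp
  set g1 := ∏ i ∈ range J, gf (20 * RR Rs i) ((β - j1) / 2) (RR Rs i) (z i) with hg1
  set g2 := ∏ i ∈ range J, gf (20 * RR Rs i) ((β - j2) / 2) (RR Rs i) (z i) with hg2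
  have hg10 : 0 ≤ g1 := prod_nonneg fun i _ => gf_nonneg _ _ _ _
  have hg20 : 0 ≤ g2 := prod_nonneg fun i _ => gf_nonneg _ _ _ _
  have hPp := Ps_nonneg β J Rs s z w
  have hPm := Ps_nonneg β J Rs (-s) z w
  have hPz := Ps_nonneg β J Rs 0 z w
  have hYk : 1 ≤ Y ^ k := one_le_pow₀ hY
  rcases hx.eq_or_lt with hx | hx
  · subst hx
    rw [Real.zero_rpow h0.ne', zero_mul]
    positivity
  set G := ∑ i ∈ Gd J Rs z, (z i).re with hG
  set B := ∏ i ∈ Wb J Rs w, (‖w i‖ / RR Rs i) ^ (RR Rs i) with hBd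
  obtain ⟨hb1, hb2⟩ := bad_part (J := J) hRs hB w
  rw [← hBd] at hb1 hb2
  set Fb := ∑ i ∈ Wb J Rs w, (w i).re with hFb
  set Sg := ∑ i ∈ Wg J Rs w, (w i).re with hSg
  set Fg := Sg - M with hFg
  have hsum : ∑ i ∈ range J, (w i).re = Sg + Fb := by
    rw [hSg, hFb]; unfold Wg Wb
    exact (sum_filter_add_sum_filter_not _ _ _).symm
  -- three products
  have q1 := prodW h0 hβ4 (J := J) hRs hs1 z w
  have q2 := prodW h0 hβ4 (J := J) hRs hsn z w
  have q3 := prodW h0 hβ4 (J := J) hRs hsz z w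
  rw [← hG, ← hBd, ← hSg] at q1 q2 q3
  rw [mul_zero, zero_mul, add_zero] at q3
  have hdrop : ∀ a b : ℝ, Real.exp a * B ≤ b → Real.exp a ≤ b := fun a b h =>
    le_trans (le_mul_of_one_le_right (Real.exp_pos _).le hb2) h
  have q1' : Real.exp (β * G + 2 * s * Fg) ≤ 2 * (Real.exp (-(2 * s * M)) * Ps β J Rs s z w) := by
    have := mul_le_mul_of_nonneg_left (hdrop _ _ q1) (Real.exp_pos (-(2 * s * M))).le
    rw [← Real.exp_add] at this
    calc Real.exp (β * G + 2 * s * Fg) = Real.exp (-(2 * s * M) + (β * G + 2 * s * Sg)) := by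
          congr 1; rw [hFg]; ring
      _ ≤ _ := by linarith
  have q2' : Real.exp (β * G - 2 * s * Fg) ≤ 2 * (Real.exp (2 * s * M) * Ps β J Rs (-s) z w) := by
    have := mul_le_mul_of_nonneg_left (hdrop _ _ q2) (Real.exp_pos (2 * s * M)).le
    rw [← Real.exp_add] at this
    calc Real.exp (β * G - 2 * s * Fg) = Real.exp (2 * s * M + (β * G + 2 * (-s) * Sg)) := by
          congr 1; rw [hFg]; ring
      _ ≤ _ := by linarith
  have q12 : Real.exp (β * G + 2 * s * |Fg|) ≤ 2 * (Real.exp (-(2 * s * M)) * Ps β J Rs s z w +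
      Real.exp (2 * s * M) * Ps β J Rs (-s) z w) := by
    have e1 : 0 ≤ Real.exp (-(2 * s * M)) * Ps β J Rs s z w := by positivity
    have e2 : 0 ≤ Real.exp (2 * s * M) * Ps β J Rs (-s) z w := by positivity
    rcases abs_cases Fg with ⟨h, _⟩ | ⟨h, _⟩
    · rw [h]; linarith
    · rw [h]
      have : β * G + 2 * s * -Fg = β * G - 2 * s * Fg := by ring
      rw [this]; linarith
  -- the main variable
  set u := x * Real.exp (-G) with hu
  have hu0 : 0 < u := by positivity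
  have hxβ : x ^ β = Real.exp (β * G) * u ^ β := by
    rw [hu, Real.mul_rpow hx.le (Real.exp_pos _).le, ← Real.exp_mul]
    rw [mul_left_comm, ← Real.exp_add]
    rw [show β * G + -G * β = 0 by ring, Real.exp_zero, mul_one]
  have hB0 : ∀ i, Big 0 (RR Rs i) := fun i => ⟨Nat.zero_le _, by
    rw [pow_zero]; exact one_le_pow₀ (by norm_num)⟩
  have p1 := prod_low (J := J) hRs hB0 h3 z
  have p2 := prod_low (J := J) hRs hB0 h4 z
  simp only [pow_zero, prod_const_one, mul_one] at p1 p2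
  rw [← hG, ← hg1] at p1
  rw [← hG, ← hg2] at p2
  have hj : ∀ j : ℕ, Real.exp (β * G) * u ^ (j:ℝ) = x ^ j * Real.exp (2 * ((β - j) / 2) * G) := by
    intro j
    rw [hu, Real.rpow_natCast, mul_pow, ← Real.exp_nat_mul]
    have : Real.exp (β * G) * (x ^ j * Real.exp ((j:ℝ) * -G)) =
        x ^ j * (Real.exp (β * G) * Real.exp ((j:ℝ) * -G)) := by ring
    rw [this, ← Real.exp_add]
    congr 2
    ring
  set MM := x ^ j1 * g1 + x ^ j2 * g2 with hMM
  have hMM0 : 0 ≤ MM := by positivity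
  have r1 : Real.exp (β * G) * u ^ (j1:ℝ) ≤ 2 * (x ^ j1 * g1) := by
    rw [hj]
    calc x ^ j1 * Real.exp (2 * ((β - j1) / 2) * G) ≤ x ^ j1 * (2 * g1) :=
          mul_le_mul_of_nonneg_left p1 (by positivity)
      _ = _ := by ring
  have r2 : Real.exp (β * G) * u ^ (j2:ℝ) ≤ 2 * (x ^ j2 * g2) := by
    rw [hj]
    calc x ^ j2 * Real.exp (2 * ((β - j2) / 2) * G) ≤ x ^ j2 * (2 * g2) :=
          mul_le_mul_of_nonneg_left p2 (by positivity)
      _ = _ := by ring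
  have x1 : 0 ≤ x ^ j1 * g1 := by positivity
  have x2 : 0 ≤ x ^ j2 * g2 := by positivity
  have r12 : Real.exp (β * G) * (u ^ (j1:ℝ) + u ^ (j2:ℝ)) ≤ 2 * MM := by
    rw [mul_add, hMM]; linarith
  have hw1 := hl1 u hu0
  have hw2 := hl2 u hu0
  rw [pow_zero, mul_one] at hw2
  have hEG : 0 < Real.exp (β * G) := Real.exp_pos _
  have hub : 0 < u ^ β := Real.rpow_pos_of_pos hu0 _
  set E12 := Real.exp (-(2 * s * M)) * Ps β J Rs s z w + Real.exp (2 * s * M) * Ps β J Rs (-s) z w with hE12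
  have hE120 : 0 ≤ E12 := by positivity
  -- the term of D
  have tD : x ^ β * D ^ k ≤ 2 * C2 * D ^ k * MM := by
    have hDk : 0 ≤ D ^ k := by positivity
    rw [hxβ]
    calc Real.exp (β * G) * u ^ β * D ^ k ≤ Real.exp (β * G) * (C2 * (u ^ (j1:ℝ) + u ^ (j2:ℝ))) * D ^ k := by
          gcongr
      _ = C2 * D ^ k * (Real.exp (β * G) * (u ^ (j1:ℝ) + u ^ (j2:ℝ))) := by ring
      _ ≤ C2 * D ^ k * (2 * MM) := mul_le_mul_of_nonneg_left r12 (by positivity)
      _ = _ := by ring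
  -- the term of Fb
  have tB : x ^ β * |Fb| ^ k ≤ 2 * Ps β J Rs 0 z w + 2 * MM := by
    have hFk : 0 ≤ |Fb| ^ k := by positivity
    rw [hxβ]
    rcases le_or_gt (u ^ (2 * β)) B with h | h
    · have h5 : (|Fb| ^ k) ^ 2 ≤ B := by
        rcases le_or_gt (|Fb|) 1 with h6 | h6
        · exact (pow_le_one₀ hFk (pow_le_one₀ (abs_nonneg _) h6)).trans hb2
        · refine le_trans ?_ hb1
          rw [← pow_mul]
          exact pow_le_pow_right₀ h6.le (Nat.mul_le_mul_left k (by omega))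
      have h6 : u ^ β * |Fb| ^ k ≤ B := by
        have h7 : (u ^ β * |Fb| ^ k) ^ 2 ≤ B ^ 2 := by
          rw [mul_pow, ← Real.rpow_natCast (u ^ β) 2, ← Real.rpow_mul hu0.le]
          have e : β * ((2:ℕ):ℝ) = 2 * β := by push_cast; ring
          rw [e, sq B]
          exact mul_le_mul h h5 (by positivity) (by linarith)
        exact le_of_sq_le_sq h7 (by linarith)
      calc Real.exp (β * G) * u ^ β * |Fb| ^ k = Real.exp (β * G) * (u ^ β * |Fb| ^ k) := by ring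
        _ ≤ Real.exp (β * G) * B := mul_le_mul_of_nonneg_left h6 hEG.le
        _ ≤ _ := by linarith
    · have hu1 : 1 < u := by
        by_contra hcon
        push Not at hcon
        have := Real.rpow_le_one hu0.le hcon (by linarith : 0 ≤ 2 * β)
        linarith
      have hq0 : (0:ℝ) < q' := by rw [hq']; positivity
      have h5 : |Fb| ^ k ≤ u ^ (2 * β / q') := by
        have h6 : (|Fb| ^ k) ^ q' ≤ (u ^ (2 * β / q')) ^ q' := by
          rw [← pow_mul, ← Real.rpow_natCast (u ^ (2 * β / q')), ← Real.rpow_mul hu0.le,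
            div_mul_cancel₀ _ hq0.ne']
          exact hb1.trans h.le
        exact le_of_pow_le_pow_left₀ (by omega) (by positivity) h6
      calc Real.exp (β * G) * u ^ β * |Fb| ^ k ≤ Real.exp (β * G) * u ^ β * u ^ (2 * β / q') :=
            mul_le_mul_of_nonneg_left h5 (by positivity)
        _ = Real.exp (β * G) * u ^ (β + 2 * β / q') := by rw [Real.rpow_add hu0]; ring
        _ ≤ Real.exp (β * G) * u ^ (j2:ℝ) :=
            mul_le_mul_of_nonneg_left (Real.rpow_le_rpow_of_exponent_le hu1.le hqq) hEG.le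
        _ ≤ _ := by rw [hMM]; linarith
  -- the term of Fg
  have tG : x ^ β * |Fg| ^ k ≤ Y ^ k * (2 * A * E12 + 2 * (β / δ) ^ k * C1 * MM) := by
    set l := |Fg| / Y with hl
    have hl0 : 0 ≤ l := by positivity
    have e1 : |Fg| ^ k = Y ^ k * l ^ k := by rw [← mul_pow, hl]; congr 1; field_simp
    have e2 : 2 * s * |Fg| = 2 * (δ * l) := by
      have : |Fg| = Y * l := by rw [hl]; field_simp
      rw [this, ← hsY]; ring
    rw [e1, mul_left_comm]
    refine mul_le_mul_of_nonneg_left ?_ (by positivity)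
    rw [hxβ]
    rcases le_or_gt (u ^ β) (Real.exp (δ * l)) with h | h
    · have h5 := lam_pow k hδ0 hl0
      have h6 : Real.exp (β * G) * u ^ β * l ^ k ≤ 2 * A * E12 := by
        calc Real.exp (β * G) * u ^ β * l ^ k ≤
            Real.exp (β * G) * Real.exp (δ * l) * (A * Real.exp (δ * l)) := by gcongr
          _ = A * Real.exp (β * G + 2 * s * |Fg|) := by
              rw [e2, Real.exp_add, two_mul (δ * l), Real.exp_add]; ring
          _ ≤ A * (2 * E12) := mul_le_mul_of_nonneg_left q12 hA0.le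
          _ = _ := by ring
      have : 0 ≤ 2 * (β / δ) ^ k * C1 * MM := by positivity
      linarith
    · have h5 : δ * l < β * Real.log u := by
        have := Real.log_lt_log (Real.exp_pos _) h
        rwa [Real.log_exp, Real.log_rpow hu0] at this
      have h6 : l ≤ β / δ * |Real.log u| := by
        rw [div_mul_eq_mul_div, le_div_iff₀ hδ0]
        have := mul_le_mul_of_nonneg_left (le_abs_self (Real.log u)) h0.le
        linarith
      have h7 : Real.exp (β * G) * u ^ β * l ^ k ≤ 2 * (β / δ) ^ k * C1 * MM := by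
        calc Real.exp (β * G) * u ^ β * l ^ k ≤ Real.exp (β * G) * u ^ β * (β / δ * |Real.log u|) ^ k := by
              gcongr
          _ = (β / δ) ^ k * Real.exp (β * G) * (u ^ β * |Real.log u| ^ k) := by rw [mul_pow]; ring
          _ ≤ (β / δ) ^ k * Real.exp (β * G) * (C1 * (u ^ (j1:ℝ) + u ^ (j2:ℝ))) := by gcongr
          _ = (β / δ) ^ k * C1 * (Real.exp (β * G) * (u ^ (j1:ℝ) + u ^ (j2:ℝ))) := by ring
          _ ≤ (β / δ) ^ k * C1 * (2 * MM) := mul_le_mul_of_nonneg_left r12 (by positivity)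
          _ = _ := by ring
      have : 0 ≤ 2 * A * E12 := by positivity
      linarith
  -- conclusion
  have hk3 : |∑ i ∈ range J, (w i).re - M + r| ^ k ≤ 3 ^ k * (|Fg| ^ k + |Fb| ^ k + D ^ k) := by
    have e : ∑ i ∈ range J, (w i).re - M + r = Fg + Fb + r := by rw [hsum, hFg]; ring
    have h5 : |Fg + Fb + r| ≤ |Fg| + |Fb| + |r| :=
      (abs_add_le _ _).trans (add_le_add_left (abs_add_le _ _) _)
    have h6 : |Fg| + |Fb| + |r| ≤ 3 * max (max |Fg| |Fb|) D := by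
      have a1 := le_max_left (max |Fg| |Fb|) D
      have a2 := le_max_right (max |Fg| |Fb|) D
      have a3 := le_max_left |Fg| |Fb|
      have a4 := le_max_right |Fg| |Fb|
      linarith
    rw [e]
    calc _ ≤ (3 * max (max |Fg| |Fb|) D) ^ k := pow_le_pow_left₀ (abs_nonneg _) (h5.trans h6) k
      _ = 3 ^ k * (max (max |Fg| |Fb|) D) ^ k := mul_pow _ _ _
      _ ≤ _ := by
        refine mul_le_mul_of_nonneg_left ?_ (by positivity)
        have b1 : 0 ≤ |Fg| ^ k := by positivity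
        have b2 : 0 ≤ |Fb| ^ k := by positivity
        have b3 : 0 ≤ D ^ k := by positivity
        rcases max_choice (max |Fg| |Fb|) D with h | h
        · rw [h]
          rcases max_choice |Fg| |Fb| with h' | h'
          · rw [h']; linarith
          · rw [h']; linarith
        · rw [h]; linarith
  have hxb0 : 0 ≤ x ^ β := by positivity
  set S := MM + (E12 + Ps β J Rs 0 z w) with hS
  have hS0 : 0 ≤ S := by positivity
  have k1 : x ^ β * |Fg| ^ k ≤ (2 * A + 2 * (β / δ) ^ k * C1) * (Y ^ k * S) := by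
    refine tG.trans ?_
    have hc : 0 ≤ 2 * (β / δ) ^ k * C1 := by positivity
    have h5 : 2 * A * E12 + 2 * (β / δ) ^ k * C1 * MM ≤ (2 * A + 2 * (β / δ) ^ k * C1) * S := by
      rw [add_mul]
      refine add_le_add (mul_le_mul_of_nonneg_left ?_ (by positivity)) (mul_le_mul_of_nonneg_left ?_ hc)
      · rw [hS]; linarith
      · rw [hS]; linarith
    calc _ ≤ Y ^ k * ((2 * A + 2 * (β / δ) ^ k * C1) * S) := mul_le_mul_of_nonneg_left h5 (by positivity)
      _ = _ := by ring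
  have hYS : S ≤ Y ^ k * S := le_mul_of_one_le_left hS0 hYk
  have k2 : x ^ β * |Fb| ^ k ≤ 4 * (Y ^ k * S) := by
    have : 2 * Ps β J Rs 0 z w + 2 * MM ≤ 4 * S := by rw [hS]; linarith
    linarith
  have k3 : x ^ β * D ^ k ≤ 2 * C2 * D ^ k * (Y ^ k * S) := by
    refine tD.trans (mul_le_mul_of_nonneg_left ?_ (by positivity))
    have : MM ≤ S := by rw [hS]; linarith
    linarith
  calc x ^ β * |∑ i ∈ range J, (w i).re - M + r| ^ k ≤ x ^ β * (3 ^ k * (|Fg| ^ k + |Fb| ^ k + D ^ k)) :=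
        mul_le_mul_of_nonneg_left hk3 hxb0
    _ = 3 ^ k * (x ^ β * |Fg| ^ k + x ^ β * |Fb| ^ k + x ^ β * D ^ k) := by ring
    _ ≤ 3 ^ k * ((2 * A + 2 * (β / δ) ^ k * C1) * (Y ^ k * S) + 4 * (Y ^ k * S) +
          2 * C2 * D ^ k * (Y ^ k * S)) := by gcongr
    _ = _ := by rw [hS]; ring

end Pool.Agent.KS6_89.BT
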