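import Pool.Agent.KS6_89.BT.Mv

set_option autoImplicit false

/-! Averages over the torus of products of sums of exponentials of linear forms. -/

namespace Pool.Agent.KS6_89.BT

open Finset MeasureTheory
open Pool.Agent.TH806 (Ix TT uu chi chi_prime ec ec_norm ec_cont)

/-- the linear form -/
noncomputable def lf {N : ℕ} (c : ℕ → ℂ) (I : Finset ℕ) (θ : Ix N → ℝ) : ℂ := ∑ p ∈ I, c p * chi θ p

lemma lf_eq {N : ℕ} (c : ℕ → ℂ) {I : Finset ℕ} (hI : I ⊆ Nat.primesBelow N) (θ : Ix N → ℝ) :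
    lf c I θ = ∑ p : Ix N, if p.1 ∈ I then c p.1 * ec (θ p) else 0 := by
  have h1 : ∀ p : Ix N, (if p.1 ∈ I then c p.1 * ec (θ p) else 0) =
      (fun q : ℕ => if q ∈ I then c q * chi θ q else 0) p.1 := by
    intro p
    simp only
    rw [chi_prime]
  rw [sum_congr rfl fun p _ => h1 p, Finset.sum_coe_sort (Nat.primesBelow N)
    (fun q : ℕ => if q ∈ I then c q * chi θ q else 0), ← sum_filter]
  unfold lf
  refine sum_congr ?_ fun _ _ => rfl
  ext q
  rw [mem_filter]
  exact ⟨fun h => ⟨hI h, h⟩, fun h => h.2⟩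

/-- the average of the product -/
theorem torlin {N : ℕ} {g : Ix N → ℝ → ℝ} (hg0 : ∀ p x, 0 ≤ g p x) (hgc : ∀ p, Continuous (g p))
    (hgb : ∀ p, ∃ B : ℝ, ∀ x, g p x ≤ B) {κ : Type} [Fintype κ] [DecidableEq κ] {J : ℕ} {A : ℕ → κ → ℝ}
    (hA : ∀ i j, 0 ≤ A i j) {c : ℕ → κ → ℕ → ℂ} {I : ℕ → Finset ℕ}
    (hI : ∀ i < J, I i ⊆ Nat.primesBelow N) (hd : ∀ i j, i < j → Disjoint (I i) (I j))
    {Φ : (Ix N → ℝ) → ℝ} (hΦ0 : ∀ θ, 0 ≤ Φ θ)
    (hΦ : ∀ θ, Φ θ ≤ ∏ i ∈ range J, ∑ j, A i j * Real.exp ((lf (c i j) (I i) θ).re))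
    {u0 : ℕ → ℝ} {u1 : ℕ → κ → ℕ → ℝ}
    (h0 : ∀ p : Ix N, (∀ i < J, p.1 ∉ I i) → ∫ x, g p x ∂uu ≤ Real.exp (u0 p.1))
    (h1 : ∀ p : Ix N, ∀ i < J, p.1 ∈ I i → ∀ j : κ,
      ∫ x, g p x * Real.exp ((c i j p.1 * ec x).re) ∂uu ≤ Real.exp (u1 i j p.1)) :
    ∫ θ, (∏ p, g p (θ p)) * Φ θ ∂(TT N) ≤
      Real.exp (∑ p ∈ (Nat.primesBelow N).filter (fun p => ∀ i < J, p ∉ I i), u0 p) *
      ∏ i ∈ range J, ∑ j, A i j * Real.exp (∑ p ∈ I i, u1 i j p) := by
  -- coefficients at the primes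
  set cc : (Fin J → κ) → Ix N → ℂ := fun s p => ∑ i : Fin J, if p.1 ∈ I i then c i (s i) p.1 else 0 with hcc
  set H : (Fin J → κ) → Ix N → ℝ → ℝ := fun s p x => g p x * Real.exp ((cc s p * ec x).re) with hH
  have hH0 : ∀ s p x, 0 ≤ H s p x := fun s p x => mul_nonneg (hg0 p x) (Real.exp_pos _).le
  have hHc : ∀ s p, Continuous (H s p) := fun s p => by
    have h3 : Continuous fun x : ℝ => (cc s p * ec x).re := by
      have := ec_cont; exact Complex.continuous_re.comp (by fun_prop)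
    exact (hgc p).mul (Real.continuous_exp.comp h3)
  choose B hB using hgb
  have hB0 : ∀ p, 0 ≤ B p := fun p => (hg0 p 0).trans (hB p 0)
  have hHb : ∀ s p x, H s p x ≤ B p * Real.exp ‖cc s p‖ := by
    intro s p x
    have h2 : (cc s p * ec x).re ≤ ‖cc s p‖ := by
      have := Complex.re_le_norm (cc s p * ec x)
      rwa [norm_mul, ec_norm, mul_one] at this
    exact mul_le_mul (hB p x) (Real.exp_le_exp.mpr h2) (Real.exp_pos _).le (hB0 p)
  have hHP : ∀ s : Fin J → κ, Continuous fun θ : Ix N → ℝ => ∏ p : Ix N, H s p (θ p) := fun s =>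
    continuous_finsetProd _ fun p _ => (hHc s p).comp (continuous_apply p)
  have hHi : ∀ s : Fin J → κ, Integrable (fun θ : Ix N → ℝ => ∏ p : Ix N, H s p (θ p)) (TT N) := by
    intro s
    refine Integrable.of_bound (C := ∏ p : Ix N, (B p * Real.exp ‖cc s p‖)) (hHP s).aestronglyMeasurable
      (Filter.Eventually.of_forall fun θ => ?_)
    rw [norm_prod]
    refine prod_le_prod (fun p _ => norm_nonneg _) fun p _ => ?_
    rw [Real.norm_eq_abs, abs_of_nonneg (hH0 _ _ _)]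
    exact hHb _ _ _
  have hprodH : ∀ (s : Fin J → κ) (θ : Ix N → ℝ), ∏ p : Ix N, H s p (θ p) =
      (∏ p, g p (θ p)) * Real.exp (∑ i : Fin J, (lf (c i (s i)) (I i) θ).re) := by
    intro s θ
    simp only [hH]
    rw [prod_mul_distrib, ← Real.exp_sum]
    congr 2
    have h2 : ∀ p : Ix N, (cc s p * ec (θ p)).re = ∑ i : Fin J,
        (if p.1 ∈ I i then c i (s i) p.1 * ec (θ p) else 0).re := by
      intro p
      simp only [hcc]
      rw [sum_mul, Complex.re_sum]
      refine sum_congr rfl fun i _ => ?_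
      split_ifs
      · rfl
      · simp
    rw [sum_congr rfl fun p _ => h2 p, sum_comm]
    refine sum_congr rfl fun i _ => ?_
    rw [lf_eq _ (hI i i.2), Complex.re_sum]
  have hg00 : ∀ θ : Ix N → ℝ, 0 ≤ ∏ p, g p (θ p) := fun θ => prod_nonneg fun p _ => hg0 _ _
  have step1 : ∫ θ, (∏ p, g p (θ p)) * Φ θ ∂(TT N) ≤
      ∫ θ, ∑ s : Fin J → κ, (∏ i : Fin J, A i (s i)) * ∏ p : Ix N, H s p (θ p) ∂(TT N) := by
    refine integral_mono_of_nonneg (Filter.Eventually.of_forall fun θ => mul_nonneg (hg00 θ) (hΦ0 θ))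
      (integrable_finsetSum _ fun s _ => (hHi s).const_mul _) (Filter.Eventually.of_forall fun θ => ?_)
    simp only
    have h3 : ∏ i ∈ range J, ∑ j, A i j * Real.exp ((lf (c i j) (I i) θ).re) =
        ∑ s : Fin J → κ, (∏ i : Fin J, A i (s i)) *
          Real.exp (∑ i : Fin J, (lf (c i (s i)) (I i) θ).re) := by
      rw [Finset.prod_range, Fintype.prod_sum]
      refine sum_congr rfl fun s _ => ?_
      rw [prod_mul_distrib, Real.exp_sum]
    calc (∏ p, g p (θ p)) * Φ θ ≤ (∏ p, g p (θ p)) * ∑ s : Fin J → κ, (∏ i : Fin J, A i (s i)) *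
          Real.exp (∑ i : Fin J, (lf (c i (s i)) (I i) θ).re) :=
          mul_le_mul_of_nonneg_left ((hΦ θ).trans h3.le) (hg00 θ)
      _ = _ := by
          rw [mul_sum]
          refine sum_congr rfl fun s _ => ?_
          rw [hprodH]; ring
  refine step1.trans ?_
  rw [integral_finsetSum _ fun s _ => (hHi s).const_mul _]
  have step2 : ∀ s : Fin J → κ, ∫ θ, (∏ i : Fin J, A i (s i)) * ∏ p : Ix N, H s p (θ p) ∂(TT N) ≤
      Real.exp (∑ p ∈ (Nat.primesBelow N).filter (fun p => ∀ i < J, p ∉ I i), u0 p) *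
        ∏ i : Fin J, (A i (s i) * Real.exp (∑ p ∈ I i, u1 i (s i) p)) := by
    intro s
    rw [integral_const_mul]
    unfold TT
    rw [integral_fintype_prod_eq_prod (𝕜 := ℝ) (f := fun (p : Ix N) (x : ℝ) => H s p x)]
    -- exponent at p
    set V : ℕ → ℝ := fun q => (∑ i : Fin J, if q ∈ I i then u1 i (s i) q else 0) +
      (if (∀ i < J, q ∉ I i) then u0 q else 0) with hV
    have hp : ∀ p : Ix N, ∫ x, H s p x ∂uu ≤ Real.exp (V p.1) := by
      intro p
      by_cases hex : ∀ i < J, p.1 ∉ I i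
      · have e1 : cc s p = 0 := sum_eq_zero fun i _ => if_neg (hex i i.2)
        have e2 : V p.1 = u0 p.1 := by
          rw [hV]; simp only
          rw [sum_eq_zero fun (i : Fin J) _ => if_neg (hex i i.2), if_pos hex, zero_add]
        simp only [hH]
        rw [e1, e2]
        simp only [zero_mul, Complex.zero_re, Real.exp_zero, mul_one]
        exact h0 p hex
      · push Not at hex
        obtain ⟨i, hi, hpi⟩ := hex
        have huniq : ∀ j : Fin J, j ≠ ⟨i, hi⟩ → p.1 ∉ I j := by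
          intro j hj hpj
          have hne : (j : ℕ) ≠ i := fun h => hj (Fin.ext h)
          rcases lt_or_gt_of_ne hne with h | h
          · exact disjoint_left.mp (hd _ _ h) hpj hpi
          · exact disjoint_left.mp (hd _ _ h) hpi hpj
        have e1 : cc s p = c i (s ⟨i, hi⟩) p.1 := by
          simp only [hcc]
          rw [sum_eq_single ⟨i, hi⟩ (fun j _ hj => if_neg (huniq j hj)) (fun h => absurd (mem_univ _) h)]
          exact if_pos hpi
        have e2 : V p.1 = u1 i (s ⟨i, hi⟩) p.1 := by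
          rw [hV]; simp only
          rw [sum_eq_single ⟨i, hi⟩ (fun j _ hj => if_neg (huniq j hj)) (fun h => absurd (mem_univ _) h),
            if_pos hpi, if_neg (by push Not; exact ⟨i, hi, hpi⟩), add_zero]
        simp only [hH]
        rw [e1, e2]; exact h1 p i hi hpi _
    have hprod : ∏ p : Ix N, ∫ x, H s p x ∂uu ≤ Real.exp (∑ p : Ix N, V p.1) := by
      rw [Real.exp_sum]
      exact prod_le_prod (fun p _ => integral_nonneg fun x => hH0 s p x) fun p _ => hp p
    have hsum : ∑ p : Ix N, V p.1 = (∑ p ∈ (Nat.primesBelow N).filter (fun p => ∀ i < J, p ∉ I i), u0 p) +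
        ∑ i : Fin J, ∑ p ∈ I i, u1 i (s i) p := by
      rw [Finset.sum_coe_sort (Nat.primesBelow N) V, hV]
      simp only
      rw [sum_add_distrib, sum_comm, add_comm, sum_filter]
      congr 1
      refine sum_congr rfl fun i _ => ?_
      rw [← sum_filter]
      refine sum_congr ?_ fun _ _ => rfl
      ext q
      rw [mem_filter]
      exact ⟨fun h => h.2, fun h => ⟨hI i i.2 h, h⟩⟩
    have hA' : 0 ≤ ∏ i : Fin J, A i (s i) := prod_nonneg fun i _ => hA _ _
    refine (mul_le_mul_of_nonneg_left hprod hA').trans (le_of_eq ?_)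
    have e3 : Real.exp (∑ i : Fin J, ∑ p ∈ I i, u1 i (s i) p) =
        ∏ i : Fin J, Real.exp (∑ p ∈ I i, u1 i (s i) p) := Real.exp_sum _ _
    rw [hsum, Real.exp_add, e3, prod_mul_distrib]
    ring
  refine (sum_le_sum fun s _ => step2 s).trans (le_of_eq ?_)
  rw [← mul_sum, Finset.prod_range, Fintype.prod_sum]

end Pool.Agent.KS6_89.BT
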